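import Pool.Agent.Lib.H70H.D
import Pool.Agent.Lib.H63H.A2

/-! # H70H, chunk K1: the basic facts on `ACk` -/

set_option autoImplicit false

namespace H70H

open Finset H98P H63F H63H

variable {E : Type*} [Fintype E] [DecidableEq E]

/-- PROOF: rewrite. -/
theorem ack_congr {k : ℕ} {K K' : Finset E → Prop} (h : ∀ s, K s ↔ K' s) (hK : ACk k K) : ACk k K' := by
  have h1 : K = K' := funext fun s => propext (h s)
  rwa [← h1]

/-- Truncation: it is enough to find a `c` without the bound on the cardinalities. PROOF: replace `c` by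
`fun s => if s.card ≤ k + 1 then c s else 0`; `bd` at `r` with `r.card ≤ k` does not change (`card (insert e r) = card r + 1`
for `e ∉ r`); for `r.card ≥ k + 1` the new `bd` is `0` and `z r = 0`. -/
theorem ack_of {k : ℕ} {K : Finset E → Prop}
    (h : ∀ z : Finset E → ZMod 2, (∀ s, z s ≠ 0 → K s ∧ s.card ≤ k) → (∀ r, bd z r = 0) →
      ∃ c : Finset E → ZMod 2, (∀ s, c s ≠ 0 → K s) ∧ ∀ r, bd c r = z r) : ACk k K := by
  intro z hz hb
  obtain ⟨c, hc, hcb⟩ := h z hz hb
  refine ⟨fun s => if s.card ≤ k + 1 then c s else 0, fun s hs => ?_, fun r => ?_⟩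
  · have hs' : (if s.card ≤ k + 1 then c s else 0) ≠ 0 := hs
    by_cases h1 : s.card ≤ k + 1
    · rw [if_pos h1] at hs'
      exact ⟨hc s hs', h1⟩
    · rw [if_neg h1] at hs'
      exact absurd rfl hs'
  · show ∑ e ∈ rᶜ, (if (insert e r).card ≤ k + 1 then c (insert e r) else 0) = z r
    by_cases h1 : r.card ≤ k
    · rw [← hcb r]
      unfold bd
      refine sum_congr rfl fun e he => ?_
      rw [mem_compl] at he
      rw [if_pos]
      rw [card_insert_of_notMem he]
      omega
    · have h2 : z r = 0 := by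
        by_contra h3
        exact h1 (hz r h3).2
      rw [h2]
      refine sum_eq_zero fun e he => ?_
      rw [mem_compl] at he
      rw [if_neg]
      rw [card_insert_of_notMem he]
      omega

/-- PROOF: `ack_of`. -/
theorem ack_of_ac (k : ℕ) {K : Finset E → Prop} (h : AC K) : ACk k K := by
  exact ack_of fun z hz hb => h z (fun s hs => (hz s hs).1) hb

/-- PROOF: `ack_of`. -/
theorem ack_mono {k l : ℕ} (hkl : k ≤ l) {K : Finset E → Prop} (h : ACk l K) : ACk k K := by
  refine ack_of fun z hz hb => ?_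
  obtain ⟨c, hc, hcb⟩ := h z (fun s hs => ⟨(hz s hs).1, (hz s hs).2.trans hkl⟩) hb
  exact ⟨c, fun s hs => (hc s hs).1, hcb⟩

/-- MAYER-VIETORIS with dimensions. PROOF: as `H63F.ac_union` (file H63F/F1.lean): `z = z1 + z2`, `w = bd z1 = bd z2` is
supported on the sets of `K1`, `K2` with at most `k` elements, so `w = bd u`, `u` on at most `k + 1` elements, and `z1 + u`,
`z2 + u` are cycles on sets with at most `k + 1` elements. -/
theorem ack_union {k : ℕ} {K1 K2 : Finset E → Prop} (h1 : Dn K1) (h2 : Dn K2) (a1 : ACk (k + 1) K1)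
    (a2 : ACk (k + 1) K2) (a12 : ACk k fun s => K1 s ∧ K2 s) : ACk (k + 1) fun s => K1 s ∨ K2 s := by
  classical
  intro z hz hbd
  obtain ⟨z1, hz1⟩ : ∃ z1 : Finset E → ZMod 2, ∀ s, z1 s = if K1 s then z s else 0 := ⟨_, fun _ => rfl⟩
  obtain ⟨z2, hz2⟩ : ∃ z2 : Finset E → ZMod 2, ∀ s, z2 s = if K1 s then 0 else z s := ⟨_, fun _ => rfl⟩
  have hsum : ∀ s, z1 s + z2 s = z s := by
    intro s
    rw [hz1, hz2]
    split_ifs <;> simp
  have hs1 : ∀ s, z1 s ≠ 0 → K1 s ∧ s.card ≤ k + 1 := by
    intro s hs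
    rw [hz1] at hs
    by_cases hc : K1 s
    · rw [if_pos hc] at hs
      exact ⟨hc, (hz s hs).2⟩
    · rw [if_neg hc] at hs
      exact absurd rfl hs
  have hs2 : ∀ s, z2 s ≠ 0 → K2 s ∧ s.card ≤ k + 1 := by
    intro s hs
    rw [hz2] at hs
    by_cases hc : K1 s
    · rw [if_pos hc] at hs
      exact absurd rfl hs
    · rw [if_neg hc] at hs
      obtain ⟨h | h, h'⟩ := hz s hs
      · exact absurd h hc
      · exact ⟨h, h'⟩
  have hb : ∀ r, bd z1 r + bd z2 r = 0 := by
    intro r
    rw [← bd_add]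
    have : (fun σ => z1 σ + z2 σ) = z := funext hsum
    rw [this]
    exact hbd r
  have hb' : ∀ r, bd z1 r = bd z2 r := by
    intro r
    have h := hb r
    exact CharTwo.add_eq_zero.1 h
  have hw : ∀ (c : Finset E → ZMod 2) (K : Finset E → Prop), Dn K →
      (∀ s, c s ≠ 0 → K s ∧ s.card ≤ k + 1) → ∀ r, bd c r ≠ 0 → K r ∧ r.card ≤ k := by
    intro c K hK hc r hr
    by_contra hcon
    apply hr
    unfold bd
    refine sum_eq_zero fun e he => ?_
    rw [mem_compl] at he
    by_contra h0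
    obtain ⟨q1, q2⟩ := hc _ h0
    rw [card_insert_of_notMem he] at q2
    exact hcon ⟨hK r (insert e r) (subset_insert _ _) q1, by omega⟩
  obtain ⟨u, hu1, hu2⟩ := a12 (bd z1)
    (fun s hs => ⟨⟨(hw z1 K1 h1 hs1 s hs).1, (hw z2 K2 h2 hs2 s (by rw [← hb' s]; exact hs)).1⟩,
      (hw z1 K1 h1 hs1 s hs).2⟩)
    (fun r => bd_bd z1 r)
  obtain ⟨c1, hc1, hd1⟩ := a1 (fun s => z1 s + u s)
    (by
      intro s hs
      by_cases h : z1 s = 0
      · have h3 : u s ≠ 0 := by
          intro h4
          apply hs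
          show z1 s + u s = 0
          rw [h, h4, add_zero]
        exact ⟨(hu1 s h3).1.1, (hu1 s h3).2⟩
      · exact hs1 s h)
    (by
      intro r
      rw [bd_add, hu2 r]
      exact CharTwo.add_self_eq_zero _)
  obtain ⟨c2, hc2, hd2⟩ := a2 (fun s => z2 s + u s)
    (by
      intro s hs
      by_cases h : z2 s = 0
      · have h3 : u s ≠ 0 := by
          intro h4
          apply hs
          show z2 s + u s = 0
          rw [h, h4, add_zero]
        exact ⟨(hu1 s h3).1.2, (hu1 s h3).2⟩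
      · exact hs2 s h)
    (by
      intro r
      rw [bd_add, hu2 r, hb' r]
      exact CharTwo.add_self_eq_zero _)
  refine ⟨fun s => c1 s + c2 s, ?_, ?_⟩
  · intro s hs
    by_cases h : c1 s = 0
    · have h3 : c2 s ≠ 0 := by
        intro h4
        apply hs
        show c1 s + c2 s = 0
        rw [h, h4, add_zero]
      exact ⟨Or.inr (hc2 s h3).1, (hc2 s h3).2⟩
    · exact ⟨Or.inl (hc1 s h).1, (hc1 s h).2⟩
  · intro r
    rw [bd_add, hd1 r, hd2 r, ← hsum r]
    have h3 := CharTwo.add_self_eq_zero (u r)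
    linear_combination h3

/-- PROOF: for `k = k' + 1` use `ack_union` and `ack_mono`. For `k = 0`: `z` is supported on `∅`; `bd c1 = z` for some `c1` on `K1`
(if `z ∅ ≠ 0` then `K1 ∅` or `K2 ∅`). -/
theorem ack_union_same {k : ℕ} {K1 K2 : Finset E → Prop} (h1 : Dn K1) (h2 : Dn K2) (a1 : ACk k K1)
    (a2 : ACk k K2) (a12 : ACk k fun s => K1 s ∧ K2 s) : ACk k fun s => K1 s ∨ K2 s := by
  rcases k with _ | k
  · intro z hz hb
    by_cases h : ∀ s, z s ≠ 0 → K1 s
    · obtain ⟨c, hc, hcb⟩ := a1 z (fun s hs => ⟨h s hs, (hz s hs).2⟩) hb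
      exact ⟨c, fun s hs => ⟨Or.inl (hc s hs).1, (hc s hs).2⟩, hcb⟩
    · push Not at h
      obtain ⟨s0, q1, q2⟩ := h
      obtain ⟨q3, q4⟩ := hz s0 q1
      have q5 : K2 s0 := q3.resolve_left q2
      have q6 : s0 = ∅ := card_eq_zero.1 (Nat.le_zero.1 q4)
      obtain ⟨c, hc, hcb⟩ := a2 z (fun s hs => ⟨by
        have q7 : s = ∅ := card_eq_zero.1 (Nat.le_zero.1 (hz s hs).2)
        rw [q7, ← q6]
        exact q5, (hz s hs).2⟩) hb
      exact ⟨c, fun s hs => ⟨Or.inr (hc s hs).1, (hc s hs).2⟩, hcb⟩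
  · exact ack_union h1 h2 a1 a2 (ack_mono (Nat.le_succ k) a12)

/-- Adding one vertex `d`. PROOF: `K s ↔ (K s ∧ d ∉ s) ∨ K (insert d s)` (`Dn`); the second complex is a cone with apex `d`
(`H63H.ac_cone`, `ack_of_ac`), the intersection is the link; `ack_union`, `ack_congr`. -/
theorem ack_add {k : ℕ} {K : Finset E → Prop} (hK : Dn K) (d : E) (h1 : ACk (k + 1) fun s => K s ∧ d ∉ s)
    (h2 : ACk k fun s => K (insert d s) ∧ d ∉ s) : ACk (k + 1) K := by
  have e1 : ∀ s, ((K s ∧ d ∉ s) ∨ K (insert d s)) ↔ K s := by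
    intro s
    constructor
    · rintro (h | h)
      · exact h.1
      · exact hK s (insert d s) (subset_insert d s) h
    · intro h
      by_cases hd : d ∈ s
      · right
        rwa [insert_eq_of_mem hd]
      · exact Or.inl ⟨h, hd⟩
  refine ack_congr e1 ?_
  refine ack_union (K1 := fun s => K s ∧ d ∉ s) (K2 := fun s => K (insert d s)) ?_ ?_ h1 ?_ ?_
  · intro s t hst ht
    exact ⟨hK s t hst ht.1, fun h => ht.2 (hst h)⟩
  · intro s t hst ht
    exact hK (insert d s) (insert d t) (insert_subset_insert d hst) ht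
  · refine ack_of_ac _ (H63H.ac_cone (a := d) fun s hs => ?_)
    rwa [insert_idem]
  · refine ack_congr (fun s => ?_) h2
    constructor
    · rintro ⟨q1, q2⟩
      exact ⟨⟨hK s (insert d s) (subset_insert d s) q1, q2⟩, q1⟩
    · rintro ⟨q1, q2⟩
      exact ⟨q2, q1.2⟩

/-- PROOF: `z = z ∅ · [∅]`; take `c = z ∅ · [{d}]`. -/
theorem ack_zero {K : Finset E → Prop} {d : E} (hd : K {d}) : ACk 0 K := by
  refine ack_of fun z hz hb => ?_
  refine ⟨fun s => if s = {d} then z ∅ else 0, fun s hs => ?_, fun r => ?_⟩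
  · have hs' : (if s = {d} then z ∅ else 0) ≠ 0 := hs
    by_cases h1 : s = {d}
    · rw [h1]
      exact hd
    · rw [if_neg h1] at hs'
      exact absurd rfl hs'
  · show ∑ e ∈ rᶜ, (if insert e r = {d} then z ∅ else 0) = z r
    by_cases h1 : r = ∅
    · subst h1
      rw [sum_eq_single d]
      · rw [if_pos]
        rfl
      · intro e _ hed
        rw [if_neg]
        intro h2
        apply hed
        have h3 : e ∈ ({d} : Finset E) := by
          rw [← h2]
          exact mem_insert_self e ∅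
        exact mem_singleton.1 h3
      · intro h2
        exact absurd (mem_compl.2 (notMem_empty d)) h2
    · have h2 : z r = 0 := by
        by_contra h3
        exact h1 (card_eq_zero.1 (Nat.le_zero.1 (hz r h3).2))
      rw [h2]
      refine sum_eq_zero fun e he => ?_
      rw [mem_compl] at he
      rw [if_neg]
      intro h3
      obtain ⟨x, hx⟩ := nonempty_iff_ne_empty.2 h1
      have h4 : x ∈ ({d} : Finset E) := by
        rw [← h3]
        exact mem_insert_of_mem hx
      have h5 : e ∈ ({d} : Finset E) := by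
        rw [← h3]
        exact mem_insert_self e r
      rw [mem_singleton] at h4 h5
      apply he
      rw [h5, ← h4]
      exact hx

end H70H
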