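import Pool.Agent.Lib.H63H.D
import Pool.Agent.Lib.H63F.F6

/-!
# H70H, file D: definitions for Theorem H+ (see PROOF.md)
-/

set_option autoImplicit false

namespace H70H

open Finset H98P H63F H63H

/-- Cycles (mod 2) on sets with at most `k` elements bound in `K`. -/
def ACk {E : Type*} [Fintype E] [DecidableEq E] (k : ℕ) (K : Finset E → Prop) : Prop :=
  ∀ z : Finset E → ZMod 2, (∀ s, z s ≠ 0 → K s ∧ s.card ≤ k) → (∀ r, bd z r = 0) →
    ∃ c : Finset E → ZMod 2, (∀ s, c s ≠ 0 → K s ∧ s.card ≤ k + 1) ∧ ∀ r, bd c r = z r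

/-- The cuts which avoid the vertex `r`. -/
abbrev Cr (V : Type*) [Fintype V] [DecidableEq V] (r : V) : Type _ := {S : Cut V // r ∉ S.1}

/-- The payoff matrix of the edges against the cuts avoiding `r`. -/
noncomputable def pr {V : Type*} [Fintype V] [DecidableEq V] (r : V) (e : Sym2 V) (S : Cr V r) : ℝ := pc e S.1

/-- Laminar families of cuts avoiding `r` such that for some `v` neither `{v}` nor its complement is in `T`. -/
def Lr {V : Type*} [Fintype V] [DecidableEq V] (r : V) (T : Finset (Cr V r)) : Prop :=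
  (∀ S ∈ T, ∀ S' ∈ T, NonX S.1.1 S'.1.1) ∧ ∃ v : V, ∀ S ∈ T, S.1.1 ≠ {v} ∧ S.1.1 ≠ univ \ {v}

/-- `d = (a, b)`, `a < b`, is a diagonal of the polygon with the vertex set `X` (in the cyclic order of `Fin N`): there are
vertices of `X` strictly between `a` and `b` and vertices outside `[a, b]`. -/
def Dg {N : ℕ} (X : Finset (Fin N)) (d : Fin N × Fin N) : Prop :=
  d.1 ∈ X ∧ d.2 ∈ X ∧ d.1 < d.2 ∧ (∃ c ∈ X, d.1 < c ∧ c < d.2) ∧ ∃ c ∈ X, c < d.1 ∨ d.2 < c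

/-- The chords `d` and `e` do not cross. -/
def NC {N : ℕ} (d e : Fin N × Fin N) : Prop :=
  ¬ (d.1 < e.1 ∧ e.1 < d.2 ∧ d.2 < e.2) ∧ ¬ (e.1 < d.1 ∧ d.1 < e.2 ∧ e.2 < d.2)

/-- Sets of pairwise non-crossing diagonals of the polygon `X`. -/
def Pol {N : ℕ} (X : Finset (Fin N)) (T : Finset (Fin N × Fin N)) : Prop :=
  (∀ d ∈ T, Dg X d) ∧ ∀ d ∈ T, ∀ e ∈ T, NC d e

/-- The members of `Pol X` which have no diagonal `(c, p)` with `m ≤ c`. -/
def PolU {N : ℕ} (X : Finset (Fin N)) (p : Fin N) (m : ℕ) (T : Finset (Fin N × Fin N)) : Prop :=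
  Pol X T ∧ ∀ d ∈ T, d.2 = p → (d.1 : ℕ) < m

/-- All chords and edges of the polygon `0, .., N - 1`, pairwise non-crossing. -/
def Ch {N : ℕ} (T : Finset (Fin N × Fin N)) : Prop :=
  (∀ d ∈ T, d.1 < d.2) ∧ ∀ d ∈ T, ∀ e ∈ T, NC d e

/-- The edges of the polygon `0, .., N - 1`. -/
def Pe (N : ℕ) : Finset (Fin N × Fin N) :=
  univ.filter fun d => (d.1 : ℕ) + 1 = d.2 ∨ ((d.1 : ℕ) = 0 ∧ (d.2 : ℕ) + 1 = N)

/-- `w` is an enumeration of the vertices along the Hamiltonian cycle formed by all edges of positive weight `y`. -/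
structure HamW {V : Type*} [Fintype V] [DecidableEq V] (y : Sym2 V → ℝ) {n : ℕ} (w : Fin n → V) : Prop where
  bij : Function.Bijective w
  nonneg : ∀ e, 0 ≤ y e
  adj : ∀ i j : Fin n, (i : ℕ) + 1 = j → y s(w i, w j) = 1
  close : ∀ i j : Fin n, (i : ℕ) = 0 → (j : ℕ) + 1 = n → y s(w j, w i) = 1
  zero : ∀ i j : Fin n, (i : ℕ) ≤ j → (i : ℕ) + 1 ≠ j → ¬ ((i : ℕ) = 0 ∧ (j : ℕ) + 1 = n) → y s(w i, w j) = 0

/-- `G` contains a Hamiltonian cycle. -/
def HamIn {V : Type*} [Fintype V] [DecidableEq V] (G : Finset (Sym2 V)) : Prop :=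
  ∃ (v : V) (t : List V), (v :: t).Nodup ∧ (∀ w, w ∈ v :: t) ∧ ((v :: t) ++ [v]).IsChain fun a b => s(a, b) ∈ G

end H70H
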