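import Pool.Agent.Lib.H70H.K2

/-! # H70H, chunk K3: convex fibres with dimensions -/

set_option autoImplicit false

namespace H70H

open Finset H98P H63F H63H

variable {E : Type*} [Fintype E] [DecidableEq E]

/-- PROOF: copy of `H63F.ac_fin` (file H63F/F3.lean), `AC` replaced by `ACk k`. -/
theorem ack_fin {k : ℕ} (d : ℕ) (P : Finset E → Set (Fin d → ℝ)) (hc : ∀ s, IsCompact (P s))
    (hv : ∀ s, Convex ℝ (P s)) (ha : ∀ s t, s ⊆ t → P t ⊆ P s) (hne : (P ∅).Nonempty)
    (h : ∀ x ∈ P ∅, ACk k fun s => x ∈ P s) : ACk k fun s => (P s).Nonempty := by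
  induction d with
  | zero =>
    obtain ⟨x, hx⟩ := hne
    refine ack_congr (fun s => ?_) (h x hx)
    constructor
    · exact fun hs => ⟨x, hs⟩
    · rintro ⟨y, hy⟩
      rwa [Subsingleton.elim x y]
  | succ d ih =>
    -- the first coordinates
    have h1c : ∀ s, IsCompact ((fun x : Fin (d + 1) → ℝ => x 0) '' P s) := fun s =>
      (hc s).image (continuous_apply 0)
    have h1v : ∀ s, Convex ℝ ((fun x : Fin (d + 1) → ℝ => x 0) '' P s) := fun s =>
      (hv s).is_linear_image ⟨fun _ _ => rfl, fun _ _ => rfl⟩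
    have key : ∀ t ∈ (fun x : Fin (d + 1) → ℝ => x 0) '' P ∅,
        ACk k fun s => t ∈ (fun x : Fin (d + 1) → ℝ => x 0) '' P s := by
      intro t ht
      set Q : Finset E → Set (Fin d → ℝ) := fun s =>
        (fun (x : Fin (d + 1) → ℝ) (i : Fin d) => x i.succ) '' (P s ∩ {x | x 0 = t}) with hQ
      have hQmem : ∀ s ν, ν ∈ Q s ↔ (Fin.cons t ν : Fin (d + 1) → ℝ) ∈ P s := by
        intro s ν
        constructor
        · rintro ⟨x, ⟨hx1, hx2⟩, rfl⟩
          have : (Fin.cons t (fun i : Fin d => x i.succ) : Fin (d + 1) → ℝ) = x := by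
            funext j
            refine Fin.cases ?_ (fun i => ?_) j
            · rw [Fin.cons_zero]
              exact hx2.symm
            · rw [Fin.cons_succ]
          rw [this]
          exact hx1
        · intro hx
          refine ⟨_, ⟨hx, ?_⟩, ?_⟩
          · show (Fin.cons t ν : Fin (d + 1) → ℝ) 0 = t
            rw [Fin.cons_zero]
          · funext i
            show (Fin.cons t ν : Fin (d + 1) → ℝ) i.succ = ν i
            rw [Fin.cons_succ]
      have hQc : ∀ s, IsCompact (Q s) := by
        intro s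
        refine ((hc s).inter_right ?_).image (continuous_pi fun i => continuous_apply _)
        exact isClosed_eq (continuous_apply 0) continuous_const
      have hQv : ∀ s, Convex ℝ (Q s) := by
        intro s
        refine Convex.is_linear_image ((hv s).inter ?_) ⟨fun _ _ => rfl, fun _ _ => rfl⟩
        intro x hx y hy a b _ _ hab
        have hx' : x 0 = t := hx
        have hy' : y 0 = t := hy
        show a * x 0 + b * y 0 = t
        rw [hx', hy', ← add_mul, hab, one_mul]
      have hQa : ∀ s r, s ⊆ r → Q r ⊆ Q s := by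
        intro s r hsr
        exact Set.image_mono (Set.inter_subset_inter_left _ (ha s r hsr))
      have hiff : ∀ s, (Q s).Nonempty ↔ t ∈ (fun x : Fin (d + 1) → ℝ => x 0) '' P s := by
        intro s
        constructor
        · rintro ⟨ν, x, ⟨hx1, hx2⟩, -⟩
          exact ⟨x, hx1, hx2⟩
        · rintro ⟨x, hx1, hx2⟩
          exact ⟨_, x, ⟨hx1, hx2⟩, rfl⟩
      refine ack_congr hiff (ih Q hQc hQv hQa ((hiff ∅).2 ht) ?_)
      intro ν hν
      refine ack_congr (fun s => (hQmem s ν).symm) (h _ ((hQmem ∅ ν).1 hν))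
    have hfin := ack_line (fun s => (fun x : Fin (d + 1) → ℝ => x 0) '' P s) h1c h1v
      (fun s t hst => Set.image_mono (ha s t hst)) (hne.image _) key
    exact ack_congr (fun s => Set.image_nonempty) hfin

/-- PROOF: copy of `H63F.ac_conv` (file H63F/F3.lean), `AC` replaced by `ACk k`. -/
theorem ack_conv {k : ℕ} {ι : Type*} [Fintype ι] (P : Finset E → Set (ι → ℝ)) (hc : ∀ s, IsCompact (P s))
    (hv : ∀ s, Convex ℝ (P s)) (ha : ∀ s t, s ⊆ t → P t ⊆ P s) (hne : (P ∅).Nonempty)
    (h : ∀ x ∈ P ∅, ACk k fun s => x ∈ P s) : ACk k fun s => (P s).Nonempty := by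
  have e := Fintype.equivFin ι
  have hfin := ack_fin (Fintype.card ι)
    (fun s => (fun (x : ι → ℝ) (i : Fin (Fintype.card ι)) => x (e.symm i)) '' P s)
    (fun s => (hc s).image (continuous_pi fun i => continuous_apply _))
    (fun s => (hv s).is_linear_image ⟨fun _ _ => rfl, fun _ _ => rfl⟩)
    (fun s t hst => Set.image_mono (ha s t hst)) (hne.image _) (by
      rintro _ ⟨x, hx, rfl⟩
      refine ack_congr (fun s => ?_) (h x hx)
      constructor
      · exact fun hs => ⟨x, hs, rfl⟩
      · rintro ⟨y, hy, hxy⟩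
        have : y = x := by
          funext i
          have := congrFun hxy (e i)
          simpa using this
        rwa [← this])
  exact ack_congr (fun s => Set.image_nonempty) hfin

end H70H
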