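import Pool.Agent.Lib.H70H.R1

/-! # H70H, chunk R2: cones in the game with the cuts avoiding `r` -/

set_option autoImplicit false

namespace H70H

open Finset H98P H63F H63H

variable {V : Type*} [Fintype V] [DecidableEq V]

private theorem r2_symm {S T : Finset V} (h : NonX S T) : NonX T S := by
  rcases h with h | h | h | h
  · exact Or.inl (by rw [inter_comm]; exact h)
  · exact Or.inr (Or.inr (Or.inl h))
  · exact Or.inr (Or.inl h)
  · exact Or.inr (Or.inr (Or.inr (by rw [union_comm]; exact h)))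

private theorem r2_compl {S T : Finset V} (h : NonX S T) : NonX (univ \ S) T := by
  rcases h with h | h | h | h
  · refine Or.inr (Or.inr (Or.inl fun a ha => ?_))
    rw [Finset.mem_sdiff]
    refine ⟨mem_univ _, fun h' => ?_⟩
    have h1 : a ∈ S ∩ T := Finset.mem_inter.2 ⟨h', ha⟩
    rw [h] at h1
    exact absurd h1 (Finset.notMem_empty _)
  · refine Or.inr (Or.inr (Or.inr ?_))
    ext a
    simp only [Finset.mem_union, Finset.mem_sdiff, mem_univ, true_and, iff_true]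
    by_cases ha : a ∈ S
    · exact Or.inr (h ha)
    · exact Or.inl ha
  · refine Or.inl ?_
    ext a
    simp only [Finset.mem_inter, Finset.mem_sdiff, mem_univ, true_and, Finset.notMem_empty,
      iff_false, not_and]
    intro h1 h2
    exact h1 (h h2)
  · refine Or.inr (Or.inl fun a ha => ?_)
    have h1 : a ∈ S ∪ T := by rw [h]; exact mem_univ _
    rcases Finset.mem_union.1 h1 with h1 | h1
    · exact absurd h1 (Finset.mem_sdiff.1 ha).2
    · exact h1

/-- The apex may be chosen such that it avoids `r`. -/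
private theorem r2_apex (r : V) {x : Sym2 V → ℝ} {S0 : Finset V} (h0 : Min x S0)
    (h3 : ∀ S, Min x S → NonX S0 S) :
    ∃ S1 : Finset V, r ∉ S1 ∧ Min x S1 ∧ (∀ S, Min x S → NonX S1 S) ∧
      (2 ≤ S0.card → 2 ≤ (univ \ S0).card → 2 ≤ S1.card ∧ 2 ≤ (univ \ S1).card) := by
  by_cases hr : r ∈ S0
  · refine ⟨univ \ S0, fun h => (Finset.mem_sdiff.1 h).2 hr, min_compl h0,
      fun S hS => r2_compl (h3 S hS), fun h1 h2 => ⟨h2, ?_⟩⟩
    rw [Finset.sdiff_sdiff_eq_self (Finset.subset_univ _)]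
    exact h1
  · exact ⟨S0, hr, h0, h3, fun h1 h2 => ⟨h1, h2⟩⟩

/-- A minimum cut which crosses no minimum cut is an apex. -/
private theorem r2_insert {r : V} {x : Sym2 V → ℝ} {S0 : Finset V} (hr : r ∉ S0) (h0 : Min x S0)
    (h3 : ∀ S, Min x S → NonX S0 S) {T : Finset (Cr V r)}
    (hT : ∀ S ∈ T, ∀ S' ∈ T, NonX S.1.1 S'.1.1) (hA : Amin (pr r) (fun _ => 0) x T) :
    (∀ S ∈ insert (⟨⟨S0, h0.1, h0.2.1⟩, hr⟩ : Cr V r) T,
      ∀ S' ∈ insert (⟨⟨S0, h0.1, h0.2.1⟩, hr⟩ : Cr V r) T, NonX S.1.1 S'.1.1) ∧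
      Amin (pr r) (fun _ => 0) x (insert (⟨⟨S0, h0.1, h0.2.1⟩, hr⟩ : Cr V r) T) := by
  rw [amin_r] at hA
  constructor
  · intro S hS S' hS'
    rcases Finset.mem_insert.1 hS with rfl | hS
    · rcases Finset.mem_insert.1 hS' with rfl | hS'
      · exact h3 _ h0
      · exact h3 _ (hA S' hS')
    · rcases Finset.mem_insert.1 hS' with rfl | hS'
      · exact r2_symm (h3 _ (hA S hS))
      · exact hT S hS S' hS'
  · rw [amin_r]
    intro S hS
    rcases Finset.mem_insert.1 hS with rfl | hS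
    · exact h0
    · exact hA S hS

/-- PROOF: as `H63H.cone1` (file H63H/B2.lean); the apex is `S0` or its complement, whichever avoids `r` (`H63H.min_compl`;
`NonX (univ \ S0) S ↔ NonX S0 S`), `amin_r`. -/
theorem cone1_r (hV : 2 ≤ Fintype.card V) (r : V) {x : Sym2 V → ℝ} (hx : ∀ e, 0 ≤ x e) {v : V} (hv : ¬ Min x {v}) :
    AC fun T : Finset (Cr V r) => Lr r T ∧ Amin (pr r) (fun _ => 0) x T := by
  classical
  have hne : Nonempty (Cut V) := by
    refine ⟨⟨{v}, singleton_nonempty v, fun h => ?_⟩⟩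
    have h1 := congrArg Finset.card h
    rw [card_singleton, card_univ] at h1
    omega
  obtain ⟨S1, hS1⟩ := Finite.exists_min (fun S : Cut V => cutw x S.1)
  have hm : Min x S1.1 := ⟨S1.2.1, S1.2.2, fun S' h1 h2 => hS1 ⟨S', h1, h2⟩⟩
  obtain ⟨S2, hS2, hmin⟩ := Finset.exists_min_image (univ.filter fun S : Finset V => Min x S) Finset.card
    ⟨S1.1, by simpa using hm⟩
  have h2 : Min x S2 := (Finset.mem_filter.1 hS2).2
  have h2' : ∀ S, Min x S → NonX S2 S := by
    intro S hS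
    by_contra hc
    have h4 := (uncross hx h2 hS hc).1
    have h5 := hmin (S2 ∩ S) (Finset.mem_filter.2 ⟨mem_univ _, h4⟩)
    have h6 : ¬ S2 ⊆ S := fun h => hc (Or.inr (Or.inl h))
    have h7 : (S2 ∩ S).card < S2.card := by
      apply Finset.card_lt_card
      refine ⟨inter_subset_left, fun h => h6 fun a ha => (Finset.mem_inter.1 (h ha)).2⟩
    omega
  obtain ⟨S0, hr, h0, h3, -⟩ := r2_apex r h2 h2'
  refine ac_cone (a := (⟨⟨S0, h0.1, h0.2.1⟩, hr⟩ : Cr V r)) ?_
  rintro T ⟨⟨hT, _⟩, hA⟩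
  obtain ⟨h8, h9⟩ := r2_insert hr h0 h3 hT hA
  refine ⟨⟨h8, v, fun S hS => ?_⟩, h9⟩
  have h10 : Min x S.1.1 := (amin_r x _).1 h9 S hS
  refine ⟨fun h => hv (h ▸ h10), fun h => hv ?_⟩
  have h11 := min_compl h10
  rw [h] at h11
  simpa using h11

/-- PROOF: as `H63H.cone2`. -/
theorem cone2_r (r : V) {x : Sym2 V → ℝ} {S0 : Finset V} (h0 : Min x S0) (h1 : 2 ≤ S0.card)
    (h2 : 2 ≤ (univ \ S0).card) (h3 : ∀ S, Min x S → NonX S0 S) :
    AC fun T : Finset (Cr V r) => Lr r T ∧ Amin (pr r) (fun _ => 0) x T := by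
  classical
  obtain ⟨S1, hr, h0', h3', hc⟩ := r2_apex r h0 h3
  obtain ⟨h1', h2'⟩ := hc h1 h2
  refine ac_cone (a := (⟨⟨S1, h0'.1, h0'.2.1⟩, hr⟩ : Cr V r)) ?_
  rintro T ⟨⟨hT, v, hv⟩, hA⟩
  obtain ⟨h8, h9⟩ := r2_insert hr h0' h3' hT hA
  refine ⟨⟨h8, v, fun S hS => ?_⟩, h9⟩
  rcases Finset.mem_insert.1 hS with rfl | hS
  · constructor
    · intro h
      change S1 = {v} at h
      rw [h, card_singleton] at h1'
      omega
    · intro h
      change S1 = univ \ {v} at h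
      rw [h] at h2'
      have h10 : univ \ (univ \ {v}) = ({v} : Finset V) := by simp
      rw [h10, card_singleton] at h2'
      omega
  · exact hv S hS

end H70H
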