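import Pool.Agent.Lib.H70H.D
import Pool.Agent.Lib.H63H.B1
import Pool.Agent.Lib.H63H.C2

/-! # H70H, chunk W1: the enumeration of the vertices along the Hamiltonian cycle, starting at `r` -/

set_option autoImplicit false

namespace H70H

open Finset H98P H63F H63H

variable {V : Type*} [Fintype V] [DecidableEq V]

private theorem w1_third {y : Sym2 V → ℝ} (h0 : ∀ e, 0 ≤ y e) (hd : ∀ v, cutw y {v} = 2)
    {x b1 b2 b3 : V} (hx1 : x ≠ b1) (hx2 : x ≠ b2) (hx3 : x ≠ b3) (h12 : b1 ≠ b2) (h13 : b1 ≠ b3)
    (h23 : b2 ≠ b3) (e1 : y s(x, b1) = 1) (e2 : y s(x, b2) = 1) : y s(x, b3) = 0 := by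
  have h1 : ∑ b ∈ univ \ {x}, y s(x, b) = 2 := by
    rw [← hd x, cutw_ew]
    unfold ew
    rw [Finset.sum_singleton]
  have h2 : ∑ b ∈ ({b1, b2, b3} : Finset V), y s(x, b) ≤ ∑ b ∈ univ \ {x}, y s(x, b) := by
    refine Finset.sum_le_sum_of_subset_of_nonneg ?_ fun b _ _ => h0 _
    intro b hb
    simp only [Finset.mem_insert, Finset.mem_singleton] at hb
    simp only [Finset.mem_sdiff, Finset.mem_univ, Finset.mem_singleton, true_and]
    rcases hb with rfl | rfl | rfl
    · exact hx1.symm
    · exact hx2.symm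
    · exact hx3.symm
  have h3 : ∑ b ∈ ({b1, b2, b3} : Finset V), y s(x, b) = y s(x, b1) + (y s(x, b2) + y s(x, b3)) := by
    rw [Finset.sum_insert (by simp [h12, h13]), Finset.sum_insert (by simp [h23]),
      Finset.sum_singleton]
  have h4 := h0 s(x, b3)
  linarith

private theorem w1_g {y : Sym2 V → ℝ} {v : V} {t : List V} (h1 : (v :: t).Nodup)
    (h2 : ∀ w, w ∈ v :: t) (h3 : ((v :: t) ++ [v]).IsChain fun a b => y s(a, b) = 1) :
    ∃ g : ℕ → V, (∀ k, g (k + Fintype.card V) = g k) ∧ (∀ k, y s(g k, g (k + 1)) = 1) ∧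
      (∀ a b, a < b → b < a + Fintype.card V → g a ≠ g b) ∧ ∀ x, ∃ k, g k = x := by
  have hlen : (v :: t).length = Fintype.card V := by
    rw [← List.toFinset_card_of_nodup h1]
    have : (v :: t).toFinset = univ := by
      ext x
      simp only [List.mem_toFinset, Finset.mem_univ, iff_true]
      exact h2 x
    rw [this, Finset.card_univ]
  have hpos : 0 < (v :: t).length := by simp
  rw [← hlen]
  refine ⟨fun k => (v :: t)[k % (v :: t).length]'(Nat.mod_lt _ hpos), ?_, ?_, ?_, ?_⟩
  · intro k
    simp only [Nat.add_mod_right]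
  · intro k
    have hm : k % (v :: t).length < (v :: t).length := Nat.mod_lt _ hpos
    have hc := List.isChain_iff_getElem.1 h3 (k % (v :: t).length)
      (by rw [List.length_append]; simpa using hm)
    rw [List.getElem_append_left hm] at hc
    rcases Nat.lt_or_ge (k % (v :: t).length + 1) (v :: t).length with hlt | hge
    · rw [List.getElem_append_left hlt] at hc
      have e : (k + 1) % (v :: t).length = k % (v :: t).length + 1 := by
        rw [Nat.add_mod, Nat.mod_eq_of_lt (a := 1) (by omega), Nat.mod_eq_of_lt hlt]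
      simp only [e]
      exact hc
    · have hmm : k % (v :: t).length + 1 = (v :: t).length := by omega
      have e : (k + 1) % (v :: t).length = 0 := by
        rw [← Nat.mod_add_mod, hmm, Nat.mod_self]
      have e2 : ((v :: t) ++ [v])[k % (v :: t).length + 1]'(by
          rw [List.length_append]; simpa using hm) = v := by
        rw [List.getElem_append_right hge]
        simp
      rw [e2] at hc
      simp only [e, List.getElem_cons_zero]
      exact hc
  · intro a b hab hb heq
    have h4 : a % (v :: t).length = b % (v :: t).length := (List.Nodup.getElem_inj_iff h1).1 heq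
    have h5 : (v :: t).length ∣ b - a := (Nat.modEq_iff_dvd' hab.le).1 h4
    have h6 := Nat.le_of_dvd (by omega) h5
    omega
  · intro x
    obtain ⟨k, hk, hkx⟩ := List.mem_iff_getElem.1 (h2 x)
    refine ⟨k, ?_⟩
    simp only [Nat.mod_eq_of_lt hk]
    exact hkx

/-- PROOF: the list `v :: t` of `ham_cycle` has length `n = card V` (`Nodup`, all vertices). Rotate it such that it starts at `r` (`List.rotate`, or: `w i` =
the entry number `(i + i0) % n`, `i0` = the index of `r`). Consecutive entries (cyclically) have weight `1`. Every vertex has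
degree `2` and already two different neighbours (`n ≥ 3`) of weight `1`, so all other weights are `0` (`cutw_ew`: `2 = ∑ b, y s(v, b)`). -/
theorem ham_enum {y : Sym2 V → ℝ} (h0 : ∀ e, 0 ≤ y e) (hl : ∀ v, y s(v, v) = 0) (hd : ∀ v, cutw y {v} = 2)
    (hV : 3 ≤ Fintype.card V) {v : V} {t : List V} (h1 : (v :: t).Nodup) (h2 : ∀ w, w ∈ v :: t)
    (h3 : ((v :: t) ++ [v]).IsChain fun a b => y s(a, b) = 1) (r : V) :
    ∃ w : Fin (Fintype.card V) → V, HamW y w ∧ ∀ i : Fin (Fintype.card V), (i : ℕ) = 0 → w i = r := by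
  obtain ⟨g, gper, gadj, gne, gsurj⟩ := w1_g (y := y) h1 h2 h3
  obtain ⟨i0, hi0⟩ := gsurj r
  refine ⟨fun i => g (i + i0), ⟨?_, h0, ?_, ?_, ?_⟩, ?_⟩
  · rw [Fintype.bijective_iff_injective_and_card]
    refine ⟨?_, by simp⟩
    intro i j hij
    have hij' : g ((i : ℕ) + i0) = g ((j : ℕ) + i0) := hij
    by_contra hne
    have hne' : (i : ℕ) ≠ j := fun h => hne (Fin.ext h)
    have hi := i.2
    have hj := j.2
    rcases Nat.lt_or_ge (i : ℕ) j with h | h
    · exact gne _ _ (by omega) (by omega) hij'
    · exact gne ((j : ℕ) + i0) ((i : ℕ) + i0) (by omega) (by omega) hij'.symm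
  · intro i j hij
    have e : (j : ℕ) + i0 = (i : ℕ) + i0 + 1 := by omega
    show y s(g ((i : ℕ) + i0), g ((j : ℕ) + i0)) = 1
    rw [e]
    exact gadj _
  · intro i j hi hj
    show y s(g ((j : ℕ) + i0), g ((i : ℕ) + i0)) = 1
    have e : (j : ℕ) + i0 + 1 = (i : ℕ) + i0 + Fintype.card V := by omega
    rw [← gper ((i : ℕ) + i0), ← e]
    exact gadj _
  · intro i j hij hn1 hn2
    show y s(g ((i : ℕ) + i0), g ((j : ℕ) + i0)) = 0
    have hi := i.2
    have hj := j.2
    rcases Nat.eq_or_lt_of_le hij with he | hlt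
    · rw [he]
      exact hl _
    · have hb : (j : ℕ) < (i : ℕ) + Fintype.card V - 1 := by
        by_contra hcon
        exact hn2 ⟨by omega, by omega⟩
      have e2 : y s(g ((i : ℕ) + i0), g ((i : ℕ) + i0 + (Fintype.card V - 1))) = 1 := by
        have h5 := gadj ((i : ℕ) + i0 + (Fintype.card V - 1))
        have e : (i : ℕ) + i0 + (Fintype.card V - 1) + 1 = (i : ℕ) + i0 + Fintype.card V := by omega
        rw [e, gper, Sym2.eq_swap] at h5
        exact h5
      exact w1_third h0 hd (gne _ _ (by omega) (by omega)) (gne _ _ (by omega) (by omega))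
        (gne _ _ (by omega) (by omega)) (gne _ _ (by omega) (by omega))
        (gne _ _ (by omega) (by omega)) (gne _ _ (by omega) (by omega)).symm (gadj _) e2
  · intro i hi
    show g ((i : ℕ) + i0) = r
    rw [hi, Nat.zero_add, hi0]

end H70H
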