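import Pool.Agent.Lib.H70H.K1

/-! # H70H, chunk S: join with the boundary of a simplex -/

set_option autoImplicit false

namespace H70H

open Finset H98P H63F H63H

variable {C : Type*} [Fintype C] [DecidableEq C]

/-- PROOF. `a0 ∈ A`, `A' = A.erase a0` (`N` elements). Let `z` be the cycle. `z' S = z (A' ∪ S)` if `S` is disjoint from `A`, else `0`:
cycle of the complex off `A` (`bd z' S = bd z (A' ∪ S)`, as `z (A ∪ S) = 0`), on sets with at most `b` elements. So `z' = bd c'`;
`c'' T = c' (T \ A)` if `T ∩ A = A'`, else `0`. Then `z2 = z + bd c''` is `0` on all `T` with `T ∩ A = A'`, and the cone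
`c3 T = z2 (T.erase a0)` if `a0 ∈ T`, else `0`, is in the complex and has `bd c3 = z2` (as in `H63H.ac_cone`). `c = c3 + c''`. Use
`ack_of`. -/
theorem ack_sphere {A : Finset C} {N : ℕ} (hA : A.card = N + 1) {K0 : Finset C → Prop} (h0 : Dn K0)
    (hfree : ∀ T, K0 (T \ A) → K0 T) {b : ℕ} (hb : ACk b fun T => K0 T ∧ Disjoint T A) :
    ACk (b + N) fun T => K0 T ∧ ¬ A ⊆ T := by
  classical
  obtain ⟨a0, ha0⟩ : A.Nonempty := by
    rw [← Finset.card_pos, hA]
    omega
  obtain ⟨A', hA'⟩ : ∃ A', A' = A.erase a0 := ⟨_, rfl⟩
  have hA'c : A'.card = N := by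
    rw [hA', Finset.card_erase_of_mem ha0, hA]
    omega
  have hA'A : A' ⊆ A := by
    rw [hA']
    exact Finset.erase_subset _ _
  have ha0' : a0 ∉ A' := by
    rw [hA']
    exact Finset.notMem_erase _ _
  have hins : insert a0 A' = A := by
    rw [hA', Finset.insert_erase ha0]
  refine ack_of fun z hz hbz => ?_
  -- the link cycle
  obtain ⟨z', hz'⟩ : ∃ z' : Finset C → ZMod 2, ∀ S, z' S = if Disjoint S A then z (A' ∪ S) else 0 :=
    ⟨_, fun _ => rfl⟩
  have hz's : ∀ S, z' S ≠ 0 → (K0 S ∧ Disjoint S A) ∧ S.card ≤ b := by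
    intro S hS
    rw [hz'] at hS
    by_cases hd : Disjoint S A
    · rw [if_pos hd] at hS
      obtain ⟨⟨k1, -⟩, k2⟩ := hz _ hS
      refine ⟨⟨h0 _ _ Finset.subset_union_right k1, hd⟩, ?_⟩
      rw [Finset.card_union_of_disjoint (Disjoint.mono_left hA'A hd.symm), hA'c] at k2
      omega
    · rw [if_neg hd] at hS
      exact absurd rfl hS
  have hz'b : ∀ S, bd z' S = 0 := by
    intro S
    by_cases hd : Disjoint S A
    · have hSA : ∀ x, x ∈ A → x ∉ S := fun x hx hxS => (Finset.disjoint_left.1 hd hxS) hx
      have h1 := hbz (A' ∪ S)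
      unfold bd at h1 ⊢
      -- split off `a0`
      have h2 : (A' ∪ S)ᶜ = insert a0 (A ∪ S)ᶜ := by
        ext x
        rw [mem_compl, mem_union, mem_insert, mem_compl, mem_union, ← hins, mem_insert]
        constructor
        · intro h
          by_cases hx : x = a0
          · exact Or.inl hx
          · right
            rintro ((h3 | h3) | h3)
            · exact hx h3
            · exact h (Or.inl h3)
            · exact h (Or.inr h3)
        · rintro (h | h) (h3 | h3)
          · rw [h] at h3
            exact ha0' h3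
          · rw [h] at h3
            exact hSA a0 ha0 h3
          · exact h (Or.inl (Or.inr h3))
          · exact h (Or.inr h3)
      rw [h2, sum_insert (fun h => (mem_compl.1 h) (mem_union_left _ ha0))] at h1
      have h3 : z (insert a0 (A' ∪ S)) = 0 := by
        by_contra hcon
        obtain ⟨⟨-, k2⟩, -⟩ := hz _ hcon
        apply k2
        rw [← Finset.insert_union, hins]
        exact Finset.subset_union_left
      rw [h3, zero_add] at h1
      rw [← h1]
      -- the terms with `e ∈ A` vanish
      have h4 : Sᶜ = A ∪ (A ∪ S)ᶜ := by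
        ext x
        rw [mem_compl, mem_union, mem_compl, mem_union]
        constructor
        · intro h
          by_cases hx : x ∈ A
          · exact Or.inl hx
          · exact Or.inr fun h5 => h5.elim hx h
        · rintro (h | h)
          · exact hSA x h
          · exact fun h5 => h (Or.inr h5)
      rw [h4, sum_union]
      · have h5 : ∑ e ∈ A, z' (insert e S) = 0 := by
          refine sum_eq_zero fun e he => ?_
          rw [hz', if_neg]
          intro h6
          exact (Finset.disjoint_left.1 h6 (mem_insert_self e S)) he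
        rw [h5, zero_add]
        refine sum_congr rfl fun e he => ?_
        have he' : e ∉ A := fun h6 => (mem_compl.1 he) (mem_union_left _ h6)
        rw [hz', if_pos, Finset.union_insert]
        rw [Finset.disjoint_insert_left]
        exact ⟨he', hd⟩
      · rw [Finset.disjoint_left]
        intro x hx hx'
        exact (mem_compl.1 hx') (mem_union_left _ hx)
    · unfold bd
      refine sum_eq_zero fun e _ => ?_
      rw [hz', if_neg]
      intro h6
      exact hd (Disjoint.mono_left (Finset.subset_insert e S) h6)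
  obtain ⟨c', hc's, hc'b⟩ := hb z' hz's hz'b
  obtain ⟨c'', hc''⟩ : ∃ c'' : Finset C → ZMod 2, ∀ T, c'' T = if T ∩ A = A' then c' (T \ A) else 0 :=
    ⟨_, fun _ => rfl⟩
  have hc''s : ∀ T, c'' T ≠ 0 → K0 T ∧ T ∩ A = A' := by
    intro T hT
    rw [hc''] at hT
    by_cases hd : T ∩ A = A'
    · rw [if_pos hd] at hT
      exact ⟨hfree T (hc's _ hT).1.1, hd⟩
    · rw [if_neg hd] at hT
      exact absurd rfl hT
  have ha0T : ∀ T, T ∩ A = A' → a0 ∉ T := by
    intro T hT h
    apply ha0'
    rw [← hT]
    exact mem_inter.2 ⟨h, ha0⟩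
  -- the boundary of `c''` on the sets `T` with `T ∩ A = A'`
  have hbT : ∀ T, T ∩ A = A' → bd c'' T = z T := by
    intro T hT
    have hTT : A' ∪ (T \ A) = T := by
      rw [← hT]
      ext x
      rw [mem_union, mem_inter, mem_sdiff]
      tauto
    have h1 := hc'b (T \ A)
    have hdT : Disjoint (T \ A) A := Finset.sdiff_disjoint
    rw [hz', if_pos hdT, hTT] at h1
    rw [← h1]
    unfold bd
    have h4 : (T \ A)ᶜ = A ∪ (A ∪ T)ᶜ := by
      ext x
      rw [mem_compl, mem_union, mem_compl, mem_union, mem_sdiff]
      tauto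
    have h5 : Tᶜ = insert a0 (A ∪ T)ᶜ := by
      ext x
      rw [mem_compl, mem_insert, mem_compl, mem_union]
      constructor
      · intro h
        by_cases hx : x = a0
        · exact Or.inl hx
        · right
          rintro (h6 | h6)
          · rw [← hins, mem_insert] at h6
            rcases h6 with h6 | h6
            · exact hx h6
            · rw [← hT] at h6
              exact h (mem_inter.1 h6).1
          · exact h h6
      · rintro (h | h) h6
        · rw [h] at h6
          exact ha0T T hT h6
        · exact h (Or.inr h6)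
    rw [h4, h5, sum_insert (fun h => (mem_compl.1 h) (mem_union_left _ ha0)), sum_union]
    · have h6 : c'' (insert a0 T) = 0 := by
        rw [hc'', if_neg]
        intro h7
        exact ha0T _ h7 (mem_insert_self _ _)
      have h7 : ∑ e ∈ A, c' (insert e (T \ A)) = 0 := by
        refine sum_eq_zero fun e he => ?_
        by_contra hcon
        exact (Finset.disjoint_left.1 (hc's _ hcon).1.2 (mem_insert_self e _)) he
      rw [h6, h7, zero_add, zero_add]
      refine sum_congr rfl fun e he => ?_
      have he' : e ∉ A := fun h6 => (mem_compl.1 he) (mem_union_left _ h6)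
      rw [hc'', Finset.insert_inter_of_notMem he', if_pos hT, Finset.insert_sdiff_of_notMem _ he']
    · rw [Finset.disjoint_left]
      intro x hx hx'
      exact (mem_compl.1 hx') (mem_union_left _ hx)
  -- the remaining cycle
  obtain ⟨z2, hz2⟩ : ∃ z2 : Finset C → ZMod 2, z2 = fun T => z T + bd c'' T := ⟨_, rfl⟩
  have hz2s : ∀ T, z2 T ≠ 0 → K0 T ∧ ¬ A ⊆ insert a0 T := by
    intro T hT
    have hTA : T ∩ A ≠ A' := by
      intro h
      apply hT
      rw [hz2]
      change z T + bd c'' T = 0
      rw [hbT T h]
      exact CharTwo.add_self_eq_zero _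
    have hTK : K0 T ∧ ¬ A ⊆ T := by
      by_cases hzT : z T = 0
      · have h1 : bd c'' T ≠ 0 := by
          intro h
          apply hT
          rw [hz2]
          change z T + bd c'' T = 0
          rw [hzT, h, add_zero]
        obtain ⟨e, he, he'⟩ := Finset.exists_ne_zero_of_sum_ne_zero h1
        obtain ⟨k1, k2⟩ := hc''s _ he'
        refine ⟨h0 _ _ (Finset.subset_insert e T) k1, fun h => ?_⟩
        exact ha0T _ k2 (mem_insert_of_mem (h ha0))
      · exact (hz T hzT).1
    refine ⟨hTK.1, fun h => ?_⟩
    have h2 : A' ⊆ T := by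
      intro x hx
      rcases mem_insert.1 (h (hA'A hx)) with h3 | h3
      · rw [h3] at hx
        exact absurd hx ha0'
      · exact h3
    by_cases h3 : a0 ∈ T
    · apply hTK.2
      rw [← hins]
      exact Finset.insert_subset h3 h2
    · apply hTA
      ext x
      rw [mem_inter]
      constructor
      · rintro ⟨h4, h5⟩
        rw [← hins, mem_insert] at h5
        rcases h5 with h5 | h5
        · rw [h5] at h4
          exact absurd h4 h3
        · exact h5
      · exact fun h4 => ⟨h2 h4, hA'A h4⟩
  have hcone : AC fun T => K0 T ∧ ¬ A ⊆ insert a0 T := by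
    refine ac_cone (a := a0) fun s hs => ?_
    refine ⟨hfree _ ?_, ?_⟩
    · rw [Finset.insert_sdiff_of_mem _ ha0]
      exact h0 _ _ Finset.sdiff_subset hs.1
    · rw [Finset.insert_idem]
      exact hs.2
  obtain ⟨c3, hc3s, hc3b⟩ := hcone z2 hz2s (by
    intro r
    rw [hz2, bd_add, hbz, bd_bd, add_zero])
  refine ⟨fun T => c3 T + c'' T, ?_, ?_⟩
  · intro T hT
    by_cases h : c3 T = 0
    · have h1 : c'' T ≠ 0 := by
        intro h2
        apply hT
        change c3 T + c'' T = 0
        rw [h, h2, add_zero]
      obtain ⟨k1, k2⟩ := hc''s _ h1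
      exact ⟨k1, fun h2 => ha0T _ k2 (h2 ha0)⟩
    · obtain ⟨k1, k2⟩ := hc3s T h
      exact ⟨k1, fun h2 => k2 (h2.trans (Finset.subset_insert _ _))⟩
  · intro r
    rw [bd_add, hc3b, hz2]
    change z r + bd c'' r + bd c'' r = z r
    rw [add_assoc, CharTwo.add_self_eq_zero, add_zero]

end H70H
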