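import Pool.Agent.Lib.H70H.P3
import Pool.Agent.Lib.H70H.S

/-! # H70H, chunk P4: all chords of the polygon, not all of its edges -/

set_option autoImplicit false

namespace H70H

open Finset H98P H63F H63H

/-- The number of edges of the polygon. PROOF: `Pe N` is the image of `Fin N` under `i ↦ (i, i + 1)`, `N - 1 ↦ (0, N - 1)`. -/
theorem card_pe {N : ℕ} (hN : 3 ≤ N) : (Pe N).card = N := by
  classical
  have h0 : 0 < N := by omega
  let f : Fin N → Fin N × Fin N := fun i =>
    if h : (i : ℕ) + 1 < N then (i, ⟨(i : ℕ) + 1, h⟩) else (⟨0, h0⟩, i)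
  have hf1 : ∀ i : Fin N, ∀ h : (i : ℕ) + 1 < N, f i = (i, ⟨(i : ℕ) + 1, h⟩) := by
    intro i h
    simp only [f, dif_pos h]
  have hf2 : ∀ i : Fin N, ¬ (i : ℕ) + 1 < N → f i = (⟨0, h0⟩, i) := by
    intro i h
    simp only [f, dif_neg h]
  have himg : Pe N = univ.image f := by
    ext d
    obtain ⟨a, b⟩ := d
    simp only [Pe, Finset.mem_filter, Finset.mem_univ, true_and, Finset.mem_image]
    constructor
    · rintro (h | ⟨h1, h2⟩)
      · have hb := b.2
        refine ⟨a, ?_⟩
        have h' : (a : ℕ) + 1 < N := by omega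
        rw [hf1 a h']
        exact Prod.ext rfl (Fin.ext h)
      · refine ⟨b, ?_⟩
        have h' : ¬ (b : ℕ) + 1 < N := by omega
        rw [hf2 b h']
        exact Prod.ext (Fin.ext h1.symm) rfl
    · rintro ⟨i, hi⟩
      by_cases h : (i : ℕ) + 1 < N
      · rw [hf1 i h] at hi
        have h1 : i = a := congrArg Prod.fst hi
        have h2 : (⟨(i : ℕ) + 1, h⟩ : Fin N) = b := congrArg Prod.snd hi
        left
        rw [← h2, ← h1]
      · rw [hf2 i h] at hi
        have h1 : (⟨0, h0⟩ : Fin N) = a := congrArg Prod.fst hi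
        have h2 : i = b := congrArg Prod.snd hi
        right
        rw [← h2, ← h1]
        refine ⟨rfl, ?_⟩
        have := i.2
        omega
  have hinj : Function.Injective f := by
    intro i j hij
    by_cases hi : (i : ℕ) + 1 < N
    · by_cases hj : (j : ℕ) + 1 < N
      · rw [hf1 i hi, hf1 j hj] at hij
        exact congrArg Prod.fst hij
      · rw [hf1 i hi, hf2 j hj] at hij
        have h1 : i = (⟨0, h0⟩ : Fin N) := congrArg Prod.fst hij
        have h2 : (⟨(i : ℕ) + 1, hi⟩ : Fin N) = j := congrArg Prod.snd hij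
        have h1' : (i : ℕ) = 0 := by rw [h1]
        have h2' : (i : ℕ) + 1 = j := by rw [← h2]
        omega
    · by_cases hj : (j : ℕ) + 1 < N
      · rw [hf2 i hi, hf1 j hj] at hij
        have h1 : (⟨0, h0⟩ : Fin N) = j := congrArg Prod.fst hij
        have h2 : i = (⟨(j : ℕ) + 1, hj⟩ : Fin N) := congrArg Prod.snd hij
        have h1' : (j : ℕ) = 0 := by rw [← h1]
        have h2' : (i : ℕ) = (j : ℕ) + 1 := by rw [h2]
        omega
      · rw [hf2 i hi, hf2 j hj] at hij
        exact congrArg Prod.snd hij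
  rw [himg, Finset.card_image_of_injective _ hinj, Finset.card_univ, Fintype.card_fin]

private theorem h27_pe_lt {N : ℕ} (hN : 4 ≤ N) {d : Fin N × Fin N} (hd : d ∈ Pe N) : d.1 < d.2 := by
  simp only [Pe, Finset.mem_filter, Finset.mem_univ, true_and] at hd
  rw [Fin.lt_def]
  omega

private theorem h27_pe_nc {N : ℕ} {d e : Fin N × Fin N} (hd : d ∈ Pe N) : NC d e := by
  simp only [Pe, Finset.mem_filter, Finset.mem_univ, true_and] at hd
  have h1 := d.1.2
  have h2 := d.2.2
  have h3 := e.1.2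
  have h4 := e.2.2
  simp only [NC, Fin.lt_def]
  omega

private theorem h27_nc_symm {N : ℕ} {d e : Fin N × Fin N} (h : NC d e) : NC e d := ⟨h.2, h.1⟩

/-- PROOF: `ack_sphere` with `A = Pe N`, `K0 = Ch`, `b = N - 4`, `ack_pol univ`: a chord `d.1 < d.2` is a diagonal of `univ` iff it is not in `Pe N`,
and the members of `Pe N` cross nothing. -/
theorem ack_ch {N : ℕ} (hN : 4 ≤ N) : ACk (2 * N - 5) fun T : Finset (Fin N × Fin N) => Ch T ∧ ¬ Pe N ⊆ T := by
  classical
  have hcard : (Pe N).card = (N - 1) + 1 := by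
    rw [card_pe (by omega : 3 ≤ N)]
    omega
  have hdn : Dn (Ch : Finset (Fin N × Fin N) → Prop) := by
    intro s t hst ht
    exact ⟨fun d hd => ht.1 d (hst hd), fun d hd e he => ht.2 d (hst hd) e (hst he)⟩
  have hfree : ∀ T : Finset (Fin N × Fin N), Ch (T \ Pe N) → Ch T := by
    intro T hT
    refine ⟨?_, ?_⟩
    · intro d hd
      by_cases hp : d ∈ Pe N
      · exact h27_pe_lt hN hp
      · exact hT.1 d (Finset.mem_sdiff.2 ⟨hd, hp⟩)
    · intro d hd e he
      by_cases hp : d ∈ Pe N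
      · exact h27_pe_nc hp
      · by_cases hq : e ∈ Pe N
        · exact h27_nc_symm (h27_pe_nc hq)
        · exact hT.2 d (Finset.mem_sdiff.2 ⟨hd, hp⟩) e (Finset.mem_sdiff.2 ⟨he, hq⟩)
  have hpol : ACk (N - 4) (Pol (univ : Finset (Fin N))) := by
    apply ack_pol
    rw [Finset.card_univ, Fintype.card_fin]
    omega
  have hb : ACk (N - 4) fun T : Finset (Fin N × Fin N) => Ch T ∧ Disjoint T (Pe N) := by
    refine ack_congr ?_ hpol
    intro T
    constructor
    · rintro ⟨h1, h2⟩
      refine ⟨⟨fun d hd => (h1 d hd).2.2.1, h2⟩, ?_⟩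
      rw [Finset.disjoint_left]
      intro d hd hp
      obtain ⟨-, -, -, ⟨c, -, hc1, hc2⟩, ⟨c', -, hc'⟩⟩ := h1 d hd
      simp only [Pe, Finset.mem_filter, Finset.mem_univ, true_and] at hp
      rw [Fin.lt_def] at hc1 hc2
      rw [Fin.lt_def, Fin.lt_def] at hc'
      have := c'.2
      omega
    · rintro ⟨⟨h1, h2⟩, h3⟩
      refine ⟨?_, h2⟩
      intro d hd
      have hlt := h1 d hd
      have hp : d ∉ Pe N := Finset.disjoint_left.1 h3 hd
      simp only [Pe, Finset.mem_filter, Finset.mem_univ, true_and, not_or] at hp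
      have hlt' : (d.1 : ℕ) < d.2 := hlt
      have hd2 := d.2.2
      refine ⟨Finset.mem_univ _, Finset.mem_univ _, hlt, ?_, ?_⟩
      · refine ⟨⟨(d.1 : ℕ) + 1, by omega⟩, Finset.mem_univ _, ?_, ?_⟩
        · rw [Fin.lt_def]
          show (d.1 : ℕ) < (d.1 : ℕ) + 1
          omega
        · rw [Fin.lt_def]
          show (d.1 : ℕ) + 1 < (d.2 : ℕ)
          omega
      · by_cases h0 : (d.1 : ℕ) = 0
        · have : (d.2 : ℕ) + 1 ≠ N := fun h => hp.2 ⟨h0, h⟩
          refine ⟨⟨(d.2 : ℕ) + 1, by omega⟩, Finset.mem_univ _, Or.inr ?_⟩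
          rw [Fin.lt_def]
          show (d.2 : ℕ) < (d.2 : ℕ) + 1
          omega
        · refine ⟨⟨0, by omega⟩, Finset.mem_univ _, Or.inl ?_⟩
          rw [Fin.lt_def]
          show 0 < (d.1 : ℕ)
          omega
  have h := ack_sphere hcard hdn hfree hb
  have e : N - 4 + (N - 1) = 2 * N - 5 := by omega
  rw [e] at h
  exact h

end H70H
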