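import Pool.Agent.Lib.H70H.K1
import Pool.Agent.Lib.H63H.A3
import Pool.Agent.Lib.H63H.B2

/-! # H70H, chunk R1: the game with the cuts avoiding `r` -/

set_option autoImplicit false

namespace H70H

open Finset H98P H98Z H98M H63F H63H

variable {V : Type*} [Fintype V] [DecidableEq V]

/-- The extension by zero of a strategy on the cuts avoiding `r`. -/
private noncomputable def r1_ext {r : V} (μ : Cr V r → ℝ) (S : Cut V) : ℝ :=
  if h : r ∉ S.1 then μ ⟨S, h⟩ else 0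

private theorem r1_ext_val {r : V} (μ : Cr V r → ℝ) (S : Cr V r) : r1_ext μ S.1 = μ S := by
  unfold r1_ext
  rw [dif_pos S.2]

private theorem r1_sum {r : V} (μ : Cr V r → ℝ) (g : Cut V → ℝ) :
    ∑ S : Cut V, r1_ext μ S * g S = ∑ S : Cr V r, μ S * g S.1 := by
  refine (Fintype.sum_of_injective (Subtype.val : Cr V r → Cut V) Subtype.val_injective
    (fun S => μ S * g S.1) (fun S => r1_ext μ S * g S) ?_ ?_).symm
  · intro S hS
    have h : ¬ r ∉ S.1 := fun h => hS ⟨⟨S, h⟩, rfl⟩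
    show r1_ext μ S * g S = 0
    unfold r1_ext
    rw [dif_neg h, zero_mul]
  · intro S
    show μ S * g S.1 = r1_ext μ S.1 * g S.1
    rw [r1_ext_val]

/-- The push forward. PROOF: `T' = T.image Subtype.val`, `μ' S = if h : r ∉ S.1 then μ ⟨S, h⟩ else 0`; the sums over `Cut V` are sums over the
image of the subtype (`Finset.sum_subtype`, or `Fintype.sum_of_injective` with `Subtype.val`). -/
theorem push {r : V} {T : Finset (Cr V r)} (hT : Lr r T) {μ : Cr V r → ℝ} (hμ : μ ∈ Sx T) :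
    ∃ (T' : Finset (Cut V)) (μ' : Cut V → ℝ), Lp T' ∧ μ' ∈ Sx T' ∧ (∀ e, mm pc μ' e = mm (pr r) μ e) ∧
      ∀ S ∈ T', ∃ S' ∈ T, S'.1 = S := by
  classical
  obtain ⟨hT1, v, hv⟩ := hT
  obtain ⟨h0, h1, h2⟩ := hμ
  have hmem : ∀ S ∈ T.image (Subtype.val : Cr V r → Cut V), ∃ S' ∈ T, S'.1 = S := by
    intro S hS
    obtain ⟨S', hS', h⟩ := Finset.mem_image.1 hS
    exact ⟨S', hS', h⟩
  refine ⟨T.image (Subtype.val : Cr V r → Cut V), r1_ext μ, ⟨?_, v, ?_⟩, ⟨?_, ?_, ?_⟩, ?_, hmem⟩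
  · intro S hS S' hS'
    obtain ⟨A, hA, rfl⟩ := hmem S hS
    obtain ⟨B, hB, rfl⟩ := hmem S' hS'
    exact hT1 A hA B hB
  · intro S hS
    obtain ⟨A, hA, rfl⟩ := hmem S hS
    exact hv A hA
  · intro S
    by_cases h : r ∉ S.1
    · have h3 : r1_ext μ S = μ ⟨S, h⟩ := dif_pos h
      rw [h3]
      exact h0 _
    · have h3 : r1_ext μ S = 0 := dif_neg h
      rw [h3]
  · intro S hS
    by_cases h : r ∉ S.1
    · have h3 : r1_ext μ S = μ ⟨S, h⟩ := dif_pos h
      rw [h3]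
      exact h1 _ fun h4 => hS (Finset.mem_image.2 ⟨⟨S, h⟩, h4, rfl⟩)
    · exact dif_neg h
  · have h3 := r1_sum μ fun _ => (1 : ℝ)
    simp only [mul_one] at h3
    rw [h3, h2]
  · intro e
    exact r1_sum μ fun S => pc e S

/-- PROOF: `push`, `H63H.hyp_bK`. -/
theorem hyp_br (hV : 2 ≤ Fintype.card V) {cross : Sym2 V → Sym2 V → Prop} (hsymm : ∀ e f, cross e f → cross f e)
    (hHD : ∀ W : Finset V, HD cross W) {r : V} {T : Finset (Cr V r)} (hT : Lr r T) {μ : Cr V r → ℝ} (hμ : μ ∈ Sx T) :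
    AC fun G : Finset (Sym2 V) => Kp cross G ∧ Amax (pr r) μ G := by
  obtain ⟨T', μ', hT', hμ', hmm, -⟩ := push hT hμ
  have h := hyp_bK hV hsymm hHD hT'.1 hμ'
  have h2 : (fun G : Finset (Sym2 V) => Kp cross G ∧ Amax pc μ' G) =
      fun G : Finset (Sym2 V) => Kp cross G ∧ Amax (pr r) μ G := by
    funext G
    unfold Amax
    simp only [hmm]
  rw [h2] at h
  exact h

private theorem r1_pay {r : V} (x : Sym2 V → ℝ) (S : Cr V r) :
    pay (pr r) (fun _ => 0) x S = cutw x S.1.1 := by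
  unfold pay cutw pr pc
  simp

/-- `Amin` in terms of `Min`. PROOF: as `H63H.amin_iff`; a cut which contains `r` has the same value as its complement
(`H63H.cutw_symm`). -/
theorem amin_r {r : V} (x : Sym2 V → ℝ) (T : Finset (Cr V r)) :
    Amin (pr r) (fun _ => 0) x T ↔ ∀ S ∈ T, Min x S.1.1 := by
  constructor
  · intro h S hS
    refine ⟨S.1.2.1, S.1.2.2, fun S' h1 h2 => ?_⟩
    by_cases hr : r ∈ S'
    · have h3 : (univ \ S').Nonempty := by
        by_contra h4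
        rw [Finset.not_nonempty_iff_eq_empty, Finset.sdiff_eq_empty_iff_subset] at h4
        exact h2 (Finset.eq_univ_of_forall fun a => h4 (Finset.mem_univ a))
      have h4 : univ \ S' ≠ univ := by
        intro h5
        have h6 : r ∈ univ \ S' := by
          rw [h5]
          exact Finset.mem_univ r
        exact (Finset.mem_sdiff.1 h6).2 hr
      have h5 : r ∉ univ \ S' := fun h6 => (Finset.mem_sdiff.1 h6).2 hr
      have h6 := h S hS ⟨⟨univ \ S', h3, h4⟩, h5⟩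
      rw [r1_pay, r1_pay] at h6
      exact h6.trans (le_of_eq (cutw_symm x S'))
    · have h6 := h S hS ⟨⟨S', h1, h2⟩, hr⟩
      rw [r1_pay, r1_pay] at h6
      exact h6
  · intro h S hS S'
    rw [r1_pay, r1_pay]
    exact (h S hS).2.2 S'.1.1 S'.1.2.1 S'.1.2.2

/-- PROOF: `push`, `H63H.no_fixed` (`amin_r`, `H63H.amin_iff`). -/
theorem no_fixed_r (hV : 3 ≤ Fintype.card V) {r : V} {G : Finset (Sym2 V)} (hG : G.Nonempty) (hl : ∀ v, s(v, v) ∉ G)
    {x : Sym2 V → ℝ} (hx : x ∈ Sx G) {T : Finset (Cr V r)} (hT : Lr r T) (hmin : Amin (pr r) (fun _ => 0) x T)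
    {μ : Cr V r → ℝ} (hμ : μ ∈ Sx T) (hmax : Amax (pr r) μ G) : False := by
  obtain ⟨T', μ', hT', hμ', hmm, hsub⟩ := push hT hμ
  refine no_fixed hV hG hl hx hT' ?_ hμ' ?_
  · rw [amin_iff]
    intro S hS
    obtain ⟨S', hS', rfl⟩ := hsub S hS
    exact (amin_r x T).1 hmin S' hS'
  · intro e he f
    rw [hmm, hmm]
    exact hmax e he f

end H70H
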