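import Pool.Agent.Lib.H70H.K1

/-! # H70H, chunk T: transfer along a bijection of the vertices -/

set_option autoImplicit false

namespace H70H

open Finset H98P H63F H63H

private theorem t_image {α β : Type*} [DecidableEq α] [DecidableEq β] {φ : α → β} {ψ : β → α}
    {T : Finset α} (h : ∀ d ∈ T, ψ (φ d) = d) : (T.image φ).image ψ = T := by
  rw [Finset.image_image]
  ext x
  rw [Finset.mem_image]
  constructor
  · rintro ⟨y, hy, rfl⟩
    rw [Function.comp_apply, h y hy]
    exact hy
  · intro hx
    exact ⟨x, hx, h x hx⟩

private theorem t_card {α β : Type*} [DecidableEq α] [DecidableEq β] {φ : α → β} {ψ : β → α}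
    {T : Finset α} (h : ∀ d ∈ T, ψ (φ d) = d) : (T.image φ).card = T.card := by
  apply Finset.card_image_of_injOn
  intro x hx y hy hxy
  rw [← h x hx, ← h y hy, hxy]

open Classical in
/-- The boundary of a chain pulled back. -/
private theorem t_bd {α β : Type*} [Fintype α] [DecidableEq α] [Fintype β] [DecidableEq β]
    {A : Finset α → Prop} {B : Finset β → Prop} (hA : Dn A) (φ : α → β) (ψ : β → α)
    (h1 : ∀ T, A T → B (T.image φ)) (h2 : ∀ T, B T → A (T.image ψ))
    (hi : ∀ T, A T → ∀ d ∈ T, ψ (φ d) = d) (hj : ∀ T, B T → ∀ d ∈ T, φ (ψ d) = d)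
    (w : Finset β → ZMod 2) (hw : ∀ s, w s ≠ 0 → B s) (T : Finset α) :
    bd (fun s => if A s then w (s.image φ) else 0) T = if A T then bd w (T.image φ) else 0 := by
  unfold bd
  by_cases hT : A T
  · rw [if_pos hT, ← Finset.sum_filter_add_sum_filter_not Tᶜ (fun e => A (insert e T)),
      ← Finset.sum_filter_add_sum_filter_not (T.image φ)ᶜ (fun x => B (insert x (T.image φ)))]
    have z1 : ∑ e ∈ Tᶜ with ¬ A (insert e T),
        (if A (insert e T) then w ((insert e T).image φ) else 0) = 0 := by
      apply Finset.sum_eq_zero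
      intro e he
      rw [Finset.mem_filter] at he
      rw [if_neg he.2]
    have z2 : ∑ x ∈ (T.image φ)ᶜ with ¬ B (insert x (T.image φ)), w (insert x (T.image φ)) = 0 := by
      apply Finset.sum_eq_zero
      intro x hx
      rw [Finset.mem_filter] at hx
      by_contra hne
      exact hx.2 (hw _ hne)
    rw [z1, z2, add_zero, add_zero]
    refine Finset.sum_nbij' (i := φ) (j := ψ) ?_ ?_ ?_ ?_ ?_
    · intro e he
      rw [Finset.mem_filter, Finset.mem_compl] at he ⊢
      refine ⟨?_, ?_⟩
      · intro hm
        rw [Finset.mem_image] at hm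
        obtain ⟨t, ht, hte⟩ := hm
        have e1 := hi _ he.2 e (Finset.mem_insert_self e T)
        have e2 := hi _ hT t ht
        apply he.1
        rw [← e1, ← hte, e2]
        exact ht
      · rw [← Finset.image_insert]
        exact h1 _ he.2
    · intro x hx
      rw [Finset.mem_filter, Finset.mem_compl] at hx ⊢
      have e1 := hj _ hx.2 x (Finset.mem_insert_self x _)
      refine ⟨?_, ?_⟩
      · intro hm
        apply hx.1
        rw [← e1]
        exact Finset.mem_image_of_mem φ hm
      · have h3 := h2 _ hx.2
        rw [Finset.image_insert, t_image (hi T hT)] at h3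
        exact h3
    · intro e he
      rw [Finset.mem_filter] at he
      exact hi _ he.2 e (Finset.mem_insert_self e T)
    · intro x hx
      rw [Finset.mem_filter] at hx
      exact hj _ hx.2 x (Finset.mem_insert_self x _)
    · intro e he
      rw [Finset.mem_filter] at he
      show (if A (insert e T) then w ((insert e T).image φ) else 0) = w (insert (φ e) (T.image φ))
      rw [if_pos he.2, Finset.image_insert]
  · rw [if_neg hT]
    apply Finset.sum_eq_zero
    intro e he
    show (if A (insert e T) then w ((insert e T).image φ) else 0) = 0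
    rw [if_neg]
    intro h3
    exact hT (hA _ _ (Finset.subset_insert e T) h3)

/-- PROOF: for a cycle `z` on `K` put `z' T' = z (T'.image f)` if `J T'`, else `0` (`card (T'.image f) = card T'`, `hgf`). `bd z' T' = bd z
(T'.image f)` if `J T'` (the nonzero terms `e` of the right side have `K (insert e (T'.image f))`, so `J (insert (g e) T')`; bijection
`e ↔ g e`), else `0`. So `z' = bd c'`; `c T = c' (T.image g)` if `K T`, else `0`; `bd c = z` in the same way. -/
theorem ack_transfer {C C' : Type*} [Fintype C] [DecidableEq C] [Fintype C'] [DecidableEq C'] {k : ℕ}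
    {J : Finset C' → Prop} {K : Finset C → Prop} (hJ : Dn J) (hK : Dn K) (f : C' → C) (g : C → C')
    (h1 : ∀ T, J T → K (T.image f)) (h2 : ∀ T, K T → J (T.image g))
    (hgf : ∀ T, J T → ∀ d ∈ T, g (f d) = d) (hfg : ∀ T, K T → ∀ S ∈ T, f (g S) = S)
    (h : ACk k J) : ACk k K := by
  classical
  intro z hz hbz
  obtain ⟨c', hc', hbc'⟩ := h (fun s => if J s then z (s.image f) else 0) (by
    intro s hs
    by_cases hJs : J s
    · rw [if_pos hJs] at hs
      refine ⟨hJs, ?_⟩
      have := (hz _ hs).2
      rwa [t_card (hgf s hJs)] at this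
    · rw [if_neg hJs] at hs
      exact absurd rfl hs) (by
    intro r
    have h3 := t_bd hJ f g h1 h2 hgf hfg z (fun s hs => (hz s hs).1) r
    rw [h3, hbz]
    simp)
  refine ⟨fun s => if K s then c' (s.image g) else 0, ?_, ?_⟩
  · intro s hs
    by_cases hKs : K s
    · simp only [if_pos hKs] at hs
      refine ⟨hKs, ?_⟩
      have := (hc' _ hs).2
      rwa [t_card (hfg s hKs)] at this
    · simp only [if_neg hKs] at hs
      exact absurd rfl hs
  · intro r
    have h3 := t_bd hK g f h2 h1 hfg hgf c' (fun s hs => (hc' s hs).1) r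
    rw [h3]
    by_cases hKr : K r
    · rw [if_pos hKr, hbc', if_pos (h2 r hKr), t_image (hfg r hKr)]
    · rw [if_neg hKr]
      by_contra hne
      exact hKr (hz r (Ne.symm hne)).1

end H70H
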