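import Pool.Agent.Lib.H70H.W2
import Pool.Agent.Lib.H70H.T
import Pool.Agent.Lib.H70H.P4
import Pool.Agent.Lib.H70H.R1

/-! # H70H, chunk W3: the complex of a Hamiltonian cycle -/

set_option autoImplicit false

namespace H70H

open Finset H98P H63F H63H

variable {V : Type*} [Fintype V] [DecidableEq V]

omit [Fintype V] in
private theorem w3_arc {n : ℕ} {w : Fin n → V} (hw : Function.Injective w) (d : Fin n × Fin n) :
    ∃ A : Finset V, ∀ i, w i ∈ A ↔ d.1 < i ∧ i ≤ d.2 := by
  refine ⟨(univ.filter fun i => d.1 < i ∧ i ≤ d.2).image w, fun i => ?_⟩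
  rw [mem_image]
  constructor
  · rintro ⟨j, hj, hji⟩
    rw [← hw hji]
    exact (mem_filter.1 hj).2
  · intro h
    exact ⟨i, mem_filter.2 ⟨mem_univ i, h⟩, rfl⟩

private theorem w3_uniq {n : ℕ} {a b c d : Fin n} (hab : a < b) (hcd : c < d)
    (h : ∀ i : Fin n, (a < i ∧ i ≤ b) ↔ (c < i ∧ i ≤ d)) : a = c ∧ b = d := by
  have h1 := (h b).1 ⟨hab, le_refl b⟩
  have h2 := (h d).2 ⟨hcd, le_refl d⟩
  have hbd : b = d := le_antisymm h1.2 h2.2
  refine ⟨?_, hbd⟩
  rcases lt_trichotomy a c with h3 | h3 | h3
  · exact absurd ((h c).1 ⟨h3, (h1.1).le⟩).1 (lt_irrefl c)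
  · exact h3
  · exact absurd ((h a).2 ⟨h3, (h2.1).le⟩).1 (lt_irrefl a)

/-- PROOF: `ack_transfer` from `ack_ch` (`n = card V`): `f d` = the cut `{w i | d.1 < i ≤ d.2}` (a default value if not `d.1 < d.2`), `g S` = the pair
`(a, b)` of `tight_iff` (a default value if there is none). `hmin`: `Min x S ↔ cutw y S = 2`. Two arcs avoiding `r = w 0` are `NonX` iff
they are disjoint or nested iff `NC`; `{v}`, `univ \ {v}` are the images of the members of `Pe n` (`v = w i`: `(i - 1, i)`; `v = r`: the complement is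
`(0, n - 1)`), one for each vertex `v`. -/
theorem fiber_ham (hV : 4 ≤ Fintype.card V) {r : V} {x y : Sym2 V → ℝ} {w : Fin (Fintype.card V) → V} (h : HamW y w)
    (hr : ∀ i : Fin (Fintype.card V), (i : ℕ) = 0 → w i = r)
    (hmin : ∀ S : Finset V, S.Nonempty → S ≠ univ → (cutw y S = 2 ↔ Min x S)) :
    ACk (2 * Fintype.card V - 5) fun T : Finset (Cr V r) => Lr r T ∧ Amin (pr r) (fun _ => 0) x T := by
  classical
  have hinj : Function.Injective w := h.bij.1
  obtain ⟨z, hz⟩ : ∃ z : Fin (Fintype.card V), (z : ℕ) = 0 := ⟨⟨0, by omega⟩, rfl⟩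
  have hzr : w z = r := hr z hz
  have hzle : ∀ i : Fin (Fintype.card V), z ≤ i := fun i => by
    rw [Fin.le_def, hz]
    exact Nat.zero_le _
  -- a set given by an interval is a minimum cut which avoids `r`
  have hgood : ∀ (A : Finset V) (a b : Fin (Fintype.card V)), a < b → (∀ i, w i ∈ A ↔ a < i ∧ i ≤ b) →
      A.Nonempty ∧ A ≠ univ ∧ r ∉ A ∧ Min x A := by
    intro A a b hab hA
    have h1 : A.Nonempty := ⟨w b, (hA b).2 ⟨hab, le_refl b⟩⟩
    have h2 : r ∉ A := by
      rw [← hzr, hA]
      rintro ⟨h3, _⟩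
      exact absurd (hzle a) (not_le.2 h3)
    have h3 : A ≠ univ := by
      rintro rfl
      exact h2 (mem_univ r)
    refine ⟨h1, h3, h2, (hmin A h1 h3).1 ?_⟩
    refine (tight_iff h (by omega) h1 fun i hi => ?_).2 ⟨a, b, hab, hA⟩
    rw [hr i hi]
    exact h2
  have harc : ∀ d : Fin (Fintype.card V) × Fin (Fintype.card V), d.1 < d.2 →
      ∃ c : Cr V r, (∀ i, w i ∈ c.1.1 ↔ d.1 < i ∧ i ≤ d.2) := by
    intro d hd
    obtain ⟨A, hA⟩ := w3_arc hinj d
    obtain ⟨h1, h2, h3, _⟩ := hgood A d.1 d.2 hd hA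
    exact ⟨⟨⟨A, h1, h2⟩, h3⟩, hA⟩
  have hneC : Nonempty (Cr V r) := by
    obtain ⟨c, _⟩ := harc (z, ⟨1, by omega⟩) (by
      rw [Fin.lt_def]
      change (z : ℕ) < 1
      omega)
    exact ⟨c⟩
  have hf0 : ∀ d : Fin (Fintype.card V) × Fin (Fintype.card V), ∃ c : Cr V r, d.1 < d.2 →
      ∀ i, w i ∈ c.1.1 ↔ d.1 < i ∧ i ≤ d.2 := by
    intro d
    by_cases hd : d.1 < d.2
    · obtain ⟨c, hc⟩ := harc d hd
      exact ⟨c, fun _ => hc⟩
    · exact ⟨hneC.some, fun h1 => absurd h1 hd⟩
  choose f hf using hf0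
  have hg0 : ∀ S : Cr V r, ∃ d : Fin (Fintype.card V) × Fin (Fintype.card V), Min x S.1.1 →
      d.1 < d.2 ∧ ∀ i, w i ∈ S.1.1 ↔ d.1 < i ∧ i ≤ d.2 := by
    intro S
    by_cases hS : Min x S.1.1
    · have h1 := (hmin S.1.1 hS.1 hS.2.1).2 hS
      obtain ⟨a, b, hab, hA⟩ := (tight_iff h (by omega) hS.1 (fun i hi => by
        rw [hr i hi]
        exact S.2)).1 h1
      exact ⟨(a, b), fun _ => ⟨hab, hA⟩⟩
    · exact ⟨(z, z), fun h1 => absurd h1 hS⟩
  choose g hg using hg0
  have hext : ∀ A B : Finset V, (∀ i, w i ∈ A ↔ w i ∈ B) → A = B := by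
    intro A B hAB
    ext v
    obtain ⟨i, rfl⟩ := h.bij.2 v
    exact hAB i
  refine ack_transfer (J := fun T : Finset (Fin (Fintype.card V) × Fin (Fintype.card V)) =>
    Ch T ∧ ¬ Pe (Fintype.card V) ⊆ T) (K := fun T : Finset (Cr V r) => Lr r T ∧ Amin (pr r) (fun _ => 0) x T)
    ?_ ?_ f g ?_ ?_ ?_ ?_ (ack_ch hV)
  · -- `Dn J`
    intro s t hst ht
    exact ⟨⟨fun d hd => ht.1.1 d (hst hd), fun d hd e he => ht.1.2 d (hst hd) e (hst he)⟩,
      fun h1 => ht.2 (h1.trans hst)⟩
  · -- `Dn K`
    intro s t hst ht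
    refine ⟨⟨fun S hS S' hS' => ht.1.1 S (hst hS) S' (hst hS'), ?_⟩, fun S hS => ht.2 S (hst hS)⟩
    obtain ⟨v, hv⟩ := ht.1.2
    exact ⟨v, fun S hS => hv S (hst hS)⟩
  · -- images of members of `J`
    rintro T ⟨⟨hT1, hT2⟩, hT3⟩
    refine ⟨⟨?_, ?_⟩, ?_⟩
    · intro S hS S' hS'
      obtain ⟨d, hd, rfl⟩ := mem_image.1 hS
      obtain ⟨e, he, rfl⟩ := mem_image.1 hS'
      have hd1 := hf d (hT1 d hd)
      have he1 := hf e (hT1 e he)
      have hnc := hT2 d hd e he
      have hdd := hT1 d hd
      have hee := hT1 e he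
      by_cases c1 : d.2 ≤ e.1 ∨ e.2 ≤ d.1
      · left
        rw [Finset.eq_empty_iff_forall_notMem]
        intro v hv
        obtain ⟨i, rfl⟩ := h.bij.2 v
        rw [mem_inter, hd1, he1] at hv
        rcases c1 with c1 | c1
        · exact absurd (hv.2.1) (not_lt.2 (hv.1.2.trans c1))
        · exact absurd (hv.1.1) (not_lt.2 (hv.2.2.trans c1))
      · push Not at c1
        rcases le_or_gt d.1 e.1 with c2 | c2
        · rcases le_or_gt e.2 d.2 with c3 | c3
          · right; right; left
            intro v hv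
            obtain ⟨i, rfl⟩ := h.bij.2 v
            rw [he1] at hv
            rw [hd1]
            exact ⟨c2.trans_lt hv.1, hv.2.trans c3⟩
          · right; left
            rcases lt_or_eq_of_le c2 with c4 | c4
            · exact absurd ⟨c4, c1.1, c3⟩ hnc.1
            · intro v hv
              obtain ⟨i, rfl⟩ := h.bij.2 v
              rw [hd1] at hv
              rw [he1]
              exact ⟨by rw [← c4]; exact hv.1, hv.2.trans c3.le⟩
        · rcases le_or_gt d.2 e.2 with c3 | c3
          · right; left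
            intro v hv
            obtain ⟨i, rfl⟩ := h.bij.2 v
            rw [hd1] at hv
            rw [he1]
            exact ⟨c2.trans hv.1, hv.2.trans c3⟩
          · exact absurd ⟨c2, c1.2, c3⟩ hnc.2
    · obtain ⟨d, hd, hdT⟩ := Finset.not_subset.1 hT3
      unfold Pe at hd
      rw [mem_filter] at hd
      rcases hd.2 with hd1 | hd1
      · refine ⟨w d.2, fun S hS => ?_⟩
        obtain ⟨e, he, rfl⟩ := mem_image.1 hS
        have he1 := hf e (hT1 e he)
        constructor
        · intro hS1
          apply hdT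
          have h1 : e.1 = d.1 ∧ e.2 = d.2 := by
            refine w3_uniq (hT1 e he) (by rw [Fin.lt_def]; omega) fun i => ?_
            rw [← he1 i, hS1, mem_singleton]
            constructor
            · intro h2
              have h3 := hinj h2
              rw [h3]
              exact ⟨by rw [Fin.lt_def]; omega, le_refl _⟩
            · rintro ⟨h2, h3⟩
              rw [Fin.lt_def] at h2
              rw [Fin.le_def] at h3
              have h4 : i = d.2 := Fin.ext (by omega)
              rw [h4]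
          have h2 : e = d := Prod.ext h1.1 h1.2
          rw [← h2]
          exact he
        · intro hS1
          have h1 : r ∉ (f e).1.1 := (f e).2
          rw [hS1, mem_sdiff, mem_singleton] at h1
          have h2 : r = w d.2 := by
            by_contra h3
            exact h1 ⟨mem_univ r, h3⟩
          rw [← hzr] at h2
          have h3 := hinj h2
          have h4 : (d.2 : ℕ) = 0 := by rw [← h3]; exact hz
          omega
      · refine ⟨r, fun S hS => ?_⟩
        obtain ⟨e, he, rfl⟩ := mem_image.1 hS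
        have he1 := hf e (hT1 e he)
        constructor
        · intro hS1
          have h1 : r ∉ (f e).1.1 := (f e).2
          rw [hS1, mem_singleton] at h1
          exact h1 rfl
        · intro hS1
          apply hdT
          have h1 : e.1 = d.1 ∧ e.2 = d.2 := by
            refine w3_uniq (hT1 e he) (by rw [Fin.lt_def]; omega) fun i => ?_
            rw [← he1 i, hS1, mem_sdiff, mem_singleton]
            constructor
            · rintro ⟨_, h2⟩
              have h3 : i ≠ z := by
                rintro rfl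
                exact h2 hzr
              have h4 : (i : ℕ) ≠ 0 := fun h5 => h3 (Fin.ext (by rw [h5, hz]))
              have h5 := i.2
              exact ⟨by rw [Fin.lt_def]; omega, by rw [Fin.le_def]; omega⟩
            · rintro ⟨h2, _⟩
              refine ⟨mem_univ _, fun h3 => ?_⟩
              rw [← hzr] at h3
              have h4 := hinj h3
              rw [h4, Fin.lt_def] at h2
              omega
          have h2 : e = d := Prod.ext h1.1 h1.2
          rw [← h2]
          exact he
    · rw [amin_r]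
      intro S hS
      obtain ⟨d, hd, rfl⟩ := mem_image.1 hS
      exact (hgood _ d.1 d.2 (hT1 d hd) (hf d (hT1 d hd))).2.2.2
  · -- images of members of `K`
    rintro T ⟨⟨hT1, hT2⟩, hT3⟩
    rw [amin_r] at hT3
    refine ⟨⟨?_, ?_⟩, ?_⟩
    · intro d hd
      obtain ⟨S, hS, rfl⟩ := mem_image.1 hd
      exact (hg S (hT3 S hS)).1
    · have key : ∀ S ∈ T, ∀ S' ∈ T, ¬ ((g S).1 < (g S').1 ∧ (g S').1 < (g S).2 ∧ (g S).2 < (g S').2) := by
        rintro S hS S' hS' ⟨c1, c2, c3⟩
        obtain ⟨a1, a2⟩ := hg S (hT3 S hS)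
        obtain ⟨b1, b2⟩ := hg S' (hT3 S' hS')
        rcases hT1 S hS S' hS' with h1 | h1 | h1 | h1
        · rw [Finset.eq_empty_iff_forall_notMem] at h1
          apply h1 (w (g S).2)
          rw [mem_inter, a2, b2]
          exact ⟨⟨a1, le_refl _⟩, ⟨c2, c3.le⟩⟩
        · have h2 := h1 ((a2 (g S').1).2 ⟨c1, c2.le⟩)
          rw [b2] at h2
          exact absurd h2.1 (lt_irrefl _)
        · have h2 := h1 ((b2 (g S').2).2 ⟨b1, le_refl _⟩)
          rw [a2] at h2
          exact absurd h2.2 (not_le.2 c3)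
        · have h2 : r ∈ S.1.1 ∪ S'.1.1 := by
            rw [h1]
            exact mem_univ r
          rcases mem_union.1 h2 with h3 | h3
          · exact S.2 h3
          · exact S'.2 h3
      intro d hd e he
      obtain ⟨S, hS, rfl⟩ := mem_image.1 hd
      obtain ⟨S', hS', rfl⟩ := mem_image.1 he
      exact ⟨key S hS S' hS', key S' hS' S hS⟩
    · intro hPe
      obtain ⟨v, hv⟩ := hT2
      obtain ⟨i, rfl⟩ := h.bij.2 v
      have hi := i.2
      by_cases hi0 : (i : ℕ) = 0
      · have hd : (z, (⟨Fintype.card V - 1, by omega⟩ : Fin (Fintype.card V))) ∈ Pe (Fintype.card V) := by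
          unfold Pe
          rw [mem_filter]
          refine ⟨mem_univ _, Or.inr ⟨hz, ?_⟩⟩
          change Fintype.card V - 1 + 1 = Fintype.card V
          omega
        obtain ⟨S, hS, hSg⟩ := mem_image.1 (hPe hd)
        obtain ⟨a1, a2⟩ := hg S (hT3 S hS)
        rw [hSg] at a1 a2
        apply (hv S hS).2
        apply hext
        intro j
        rw [a2, mem_sdiff, mem_singleton]
        have hj := j.2
        constructor
        · rintro ⟨h1, _⟩
          refine ⟨mem_univ _, fun h2 => ?_⟩
          have h3 := hinj h2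
          rw [h3, Fin.lt_def] at h1
          change (z : ℕ) < (i : ℕ) at h1
          omega
        · rintro ⟨_, h2⟩
          have h3 : (j : ℕ) ≠ 0 := by
            intro h4
            apply h2
            have h5 : j = i := Fin.ext (by omega)
            rw [h5]
          constructor
          · rw [Fin.lt_def]
            change (z : ℕ) < (j : ℕ)
            omega
          · rw [Fin.le_def]
            change (j : ℕ) ≤ Fintype.card V - 1
            omega
      · have hd : ((⟨(i : ℕ) - 1, by omega⟩ : Fin (Fintype.card V)), i) ∈ Pe (Fintype.card V) := by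
          unfold Pe
          rw [mem_filter]
          refine ⟨mem_univ _, Or.inl ?_⟩
          change (i : ℕ) - 1 + 1 = (i : ℕ)
          omega
        obtain ⟨S, hS, hSg⟩ := mem_image.1 (hPe hd)
        obtain ⟨a1, a2⟩ := hg S (hT3 S hS)
        rw [hSg] at a1 a2
        apply (hv S hS).1
        apply hext
        intro j
        rw [a2, mem_singleton]
        constructor
        · rintro ⟨h1, h2⟩
          rw [Fin.lt_def] at h1
          rw [Fin.le_def] at h2
          change (i : ℕ) - 1 < (j : ℕ) at h1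
          change (j : ℕ) ≤ (i : ℕ) at h2
          have h5 : j = i := Fin.ext (by omega)
          rw [h5]
        · intro h1
          have h2 := hinj h1
          rw [h2]
          refine ⟨?_, le_refl _⟩
          rw [Fin.lt_def]
          change (i : ℕ) - 1 < (i : ℕ)
          omega
  · -- `g (f d) = d`
    rintro T ⟨⟨hT1, _⟩, _⟩ d hd
    have hd0 := hT1 d hd
    have hd1 := hf d hd0
    obtain ⟨a1, a2⟩ := hg (f d) (hgood _ d.1 d.2 hd0 hd1).2.2.2
    have h1 := w3_uniq a1 hd0 fun i => by rw [← a2 i, hd1 i]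
    exact Prod.ext h1.1 h1.2
  · -- `f (g S) = S`
    rintro T ⟨_, hT3⟩ S hS
    rw [amin_r] at hT3
    obtain ⟨a1, a2⟩ := hg S (hT3 S hS)
    have hd1 := hf (g S) a1
    apply Subtype.ext
    apply Subtype.ext
    apply hext
    intro i
    rw [hd1 i, a2 i]

end H70H
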