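import Pool.Agent.Lib.H70H.K6
import Pool.Agent.Lib.H70H.R2
import Pool.Agent.Lib.H70H.W1
import Pool.Agent.Lib.H70H.W3
import Pool.Agent.Lib.H63H.C2

/-! # H70H, file F: Theorem H+ -/

set_option autoImplicit false

namespace H70H

open Finset H98P H98Z H98M H63F H63H

variable {V : Type*} [Fintype V] [DecidableEq V]

private theorem fpx (a b v : V) (hab : a ≠ b) :
    px s(a, b) ({v} : Finset V) = (if v = a then (1 : ℝ) else 0) + (if v = b then (1 : ℝ) else 0) := by
  unfold px
  by_cases h1 : v = a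
  · have h2 : ¬ v = b := fun h => hab (h1 ▸ h)
    have h3 : ∃ a' ∈ ({v} : Finset V), ∃ b', b' ∉ ({v} : Finset V) ∧ s(a, b) = s(a', b') :=
      ⟨a, by simp [h1], b, by rw [mem_singleton]; exact fun h => h2 h.symm, rfl⟩
    rw [if_pos h3, if_pos h1, if_neg h2, add_zero]
  · by_cases h2 : v = b
    · have h3 : ∃ a' ∈ ({v} : Finset V), ∃ b', b' ∉ ({v} : Finset V) ∧ s(a, b) = s(a', b') :=
        ⟨b, by simp [h2], a, by rw [mem_singleton]; exact fun h => h1 h.symm, Sym2.eq_swap⟩
      rw [if_pos h3, if_neg h1, if_pos h2, zero_add]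
    · have h3 : ¬ ∃ a' ∈ ({v} : Finset V), ∃ b', b' ∉ ({v} : Finset V) ∧ s(a, b) = s(a', b') := by
        rintro ⟨a', ha', b', -, h⟩
        rw [mem_singleton] at ha'
        subst ha'
        rcases Sym2.eq_iff.1 h with ⟨h4, -⟩ | ⟨-, h4⟩
        · exact h1 h4.symm
        · exact h2 h4.symm
      rw [if_neg h3, if_neg h1, if_neg h2, add_zero]

private theorem fsum {w : Sym2 V → ℝ} (hl : ∀ v, w s(v, v) = 0) :
    ∑ v, cutw w {v} = 2 * ∑ e, w e := by
  unfold cutw
  rw [sum_comm, mul_sum]
  refine sum_congr rfl fun e _ => ?_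
  induction e with
  | _ a b =>
    by_cases hab : a = b
    · subst hab
      rw [hl]
      simp
    · rw [← mul_sum]
      have h1 : ∑ v : V, px s(a, b) ({v} : Finset V) = 2 := by
        rw [sum_congr rfl fun v _ => fpx a b v hab, sum_add_distrib]
        simp
        norm_num
      rw [h1, mul_comm]

private theorem f_int {y : Sym2 V → ℝ} {n : ℕ} {w : Fin n → V} (h : HamW y w) (e : Sym2 V) : y e = 0 ∨ y e = 1 := by
  have key : ∀ i j : Fin n, (i : ℕ) ≤ j → y s(w i, w j) = 0 ∨ y s(w i, w j) = 1 := by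
    intro i j hij
    by_cases h1 : (i : ℕ) + 1 = j
    · exact Or.inr (h.adj i j h1)
    · by_cases h2 : (i : ℕ) = 0 ∧ (j : ℕ) + 1 = n
      · right
        rw [Sym2.eq_swap]
        exact h.close i j h2.1 h2.2
      · exact Or.inl (h.zero i j hij h1 h2)
  induction e with
  | _ a b =>
    obtain ⟨i, rfl⟩ := h.bij.2 a
    obtain ⟨j, rfl⟩ := h.bij.2 b
    rcases le_total (i : ℕ) (j : ℕ) with hij | hij
    · exact key i j hij
    · rw [Sym2.eq_swap]
      exact key j i hij

/-- THEOREM H+, table form: a plane set with at least `2 n - 3` edges which contains a Hamiltonian cycle (an integral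
fractional Hamiltonian cycle), or a plane fractional Hamiltonian cycle all of whose nontrivial cuts are larger than `2`. -/
theorem hplus (hV : 4 ≤ Fintype.card V) {cross : Sym2 V → Sym2 V → Prop} (hsymm : ∀ e f, cross e f → cross f e)
    (hHD : ∀ W : Finset V, HD cross W) :
    (∃ (G : Finset (Sym2 V)) (y : Sym2 V → ℝ), Plane cross G ∧ FracHam G y ∧ (∀ e, y e = 0 ∨ y e = 1) ∧
      2 * Fintype.card V ≤ G.card + 3) ∨
      ∃ (G : Finset (Sym2 V)) (y : Sym2 V → ℝ), Plane cross G ∧ FracHam G y ∧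
        ∀ S : Finset V, 2 ≤ S.card → 2 ≤ (univ \ S).card → 2 < cutw y S := by
  classical
  have hne : Nonempty V := Fintype.card_pos_iff.1 (by omega)
  have hneE : Nonempty (Sym2 V) := hne.map fun v => s(v, v)
  have hn : (0 : ℝ) < Fintype.card V := by
    have : 0 < Fintype.card V := by omega
    exact_mod_cast this
  obtain ⟨r⟩ := id hne
  by_contra hno
  rw [not_or] at hno
  obtain ⟨hno1, hno2⟩ := hno
  push Not at hno1 hno2
  have key : ∀ G, Kp cross G → G.Nonempty → ∀ x ∈ Sx G,
      ACk (G.card - 1) fun T : Finset (Cr V r) => Lr r T ∧ Amin (pr r) (fun _ => 0) x T := by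
    intro G hGK hGn x hx
    obtain ⟨hG, hloop⟩ := hGK
    obtain ⟨hx0, hxs, hx1⟩ := id hx
    by_cases hv : ∀ v, Min x {v}
    · by_cases hcr : ∃ S, Min x S ∧ 2 ≤ S.card ∧ 2 ≤ (univ \ S).card ∧ ∀ T, Min x T → NonX S T
      · obtain ⟨S, h1, h2, h3, h4⟩ := hcr
        exact ack_of_ac _ (cone2_r r h1 h2 h3 h4)
      · push Not at hcr
        have hsc : ∀ S : Finset V,
            cutw (fun e => (Fintype.card V : ℝ) * x e) S = (Fintype.card V : ℝ) * cutw x S := by
          intro S
          unfold cutw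
          rw [mul_sum]
          exact sum_congr rfl fun e _ => by ring
        have hxl : ∀ v, x s(v, v) = 0 := fun v => hxs _ (hloop v)
        have hdeg : ∀ v, (Fintype.card V : ℝ) * cutw x {v} = 2 := by
          intro v
          have h1 : ∀ w, cutw x {w} = cutw x {v} := by
            intro w
            refine le_antisymm ((hv w).2.2 _ (hv v).1 (hv v).2.1) ((hv v).2.2 _ (hv w).1 (hv w).2.1)
          have h2 := fsum hxl
          rw [sum_congr rfl fun w _ => h1 w, sum_const, card_univ, nsmul_eq_mul, hx1] at h2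
          linarith
        obtain ⟨y, hy⟩ : ∃ y : Sym2 V → ℝ, y = fun e => (Fintype.card V : ℝ) * x e := ⟨_, rfl⟩
        have hyc : ∀ S : Finset V, cutw y S = (Fintype.card V : ℝ) * cutw x S := fun S => by
          rw [hy]
          exact hsc S
        have hge : ∀ S : Finset V, S.Nonempty → S ≠ univ → 2 ≤ cutw y S := by
          intro S h1 h2
          rw [hyc, ← hdeg r]
          exact mul_le_mul_of_nonneg_left ((hv r).2.2 S h1 h2) hn.le
        have hmin : ∀ S : Finset V, S.Nonempty → S ≠ univ → (cutw y S = 2 ↔ Min x S) := by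
          intro S h1 h2
          constructor
          · intro h3
            refine ⟨h1, h2, fun S' h4 h5 => ?_⟩
            have h6 := hge S' h4 h5
            rw [← h3, hyc, hyc] at h6
            exact le_of_mul_le_mul_left h6 hn
          · intro h3
            have h4 := h3.2.2 _ (hv r).1 (hv r).2.1
            refine le_antisymm ?_ (hge S h1 h2)
            rw [hyc, ← hdeg r]
            exact mul_le_mul_of_nonneg_left h4 hn.le
        have hF : FracHam G y := by
          refine ⟨fun e => ?_, fun e he => ?_, hloop, fun v => ?_, hge⟩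
          · rw [hy]
            exact mul_nonneg hn.le (hx0 e)
          · rw [hy]
            simp only
            rw [hxs e he, mul_zero]
          · rw [hyc]
            exact hdeg v
        have hneu : ∀ S : Finset V, 2 ≤ (univ \ S).card → S ≠ univ := by
          rintro S h1 rfl
          rw [sdiff_self] at h1
          simp at h1
        have hnn : ∀ S : Finset V, 2 ≤ S.card → S.Nonempty := fun S h1 => card_pos.1 (by omega)
        have hex : ∃ S : Finset V, 2 ≤ S.card ∧ 2 ≤ (univ \ S).card ∧ cutw y S = 2 := by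
          obtain ⟨S, h1, h2, h3⟩ := hno2 G y hG hF
          exact ⟨S, h1, h2, le_antisymm h3 (hge S (hnn S h1) (hneu S h2))⟩
        have hCac : Cac y := by
          refine ⟨hF.nonneg, fun v => hF.supp _ (hF.loop v), hF.vert, hge, ?_, hex⟩
          intro S h1 h2 h3
          obtain ⟨T, h4, h5⟩ := hcr S ((hmin S (hnn S h1) (hneu S h2)).1 h3) h1 h2
          exact ⟨T, h4.1, h4.2.1, (hmin T h4.1 h4.2.1).2 h4, h5⟩
        obtain ⟨v, t, h1, h2, h3⟩ := ham_cycle hF.nonneg (fun v => hF.supp _ (hF.loop v)) hF.vert hge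
          (by omega)
          (fun v => by
            obtain ⟨b, h1, h2⟩ := first hCac v
            obtain ⟨c, h3, h4, h5⟩ := second hCac h1 h2
            exact ⟨b, c, h1, h3, h4, h2, h5⟩)
        obtain ⟨w, hw, hwr⟩ := ham_enum hF.nonneg (fun v => hF.supp _ (hF.loop v)) hF.vert (by omega) h1 h2 h3 r
        have hcard := hno1 G y hG hF (f_int hw)
        exact ack_mono (by omega) (fiber_ham hV hw hwr hmin)
    · push Not at hv
      obtain ⟨v, hv⟩ := hv
      exact ack_of_ac _ (cone1_r (by omega) r hx0 hv)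
  obtain ⟨G, hGn, hGK, x, hx, T, hT, hAm, μ, hμ, hAx⟩ :=
    minimaxk (E := Sym2 V) (C := Cr V r) (pr r) (fun _ => 0) (Kp cross) (Lr r)
      (fun s t hst ht => ⟨fun e he f hf => ht.1 e (hst he) f (hst hf), fun v hv => ht.2 v (hst hv)⟩)
      (fun s t hst ht => ⟨fun S hS S' hS' => ht.1 S (hst hS) S' (hst hS'),
        ht.2.imp fun v hv S hS => hv S (hst hS)⟩)
      ⟨fun e he => absurd he (Finset.notMem_empty e), fun v hv => absurd hv (Finset.notMem_empty _)⟩
      ⟨fun S hS => absurd hS (Finset.notMem_empty S), ⟨r, fun S hS => absurd hS (Finset.notMem_empty S)⟩⟩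
      (ac_Kp (by omega) hsymm hHD) key
      (fun T hT μ hμ => hyp_br (by omega) hsymm hHD hT hμ)
  exact no_fixed_r (by omega) hGn hGK.2 hx hT hAm hμ hAx

/-- THEOREM H+, one set `G` in both cases; in the second case all weights on `G` are positive. -/
theorem hplus' (hV : 4 ≤ Fintype.card V) {cross : Sym2 V → Sym2 V → Prop} (hsymm : ∀ e f, cross e f → cross f e)
    (hHD : ∀ W : Finset V, HD cross W) :
    ∃ (G : Finset (Sym2 V)) (y : Sym2 V → ℝ), Plane cross G ∧ FracHam G y ∧
      (((∀ e, y e = 0 ∨ y e = 1) ∧ 2 * Fintype.card V ≤ G.card + 3) ∨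
        ((∀ e ∈ G, 0 < y e) ∧ ∀ S : Finset V, 2 ≤ S.card → 2 ≤ (univ \ S).card → 2 < cutw y S)) := by
  classical
  rcases hplus hV hsymm hHD with ⟨G, y, h1, h2, h3, h4⟩ | ⟨G, y, h1, h2, h3⟩
  · exact ⟨G, y, h1, h2, Or.inl ⟨h3, h4⟩⟩
  · refine ⟨G.filter fun e => 0 < y e, y, fun e he f hf => h1 e (mem_filter.1 he).1 f (mem_filter.1 hf).1,
      ⟨h2.nonneg, fun e he => ?_, fun v hv => h2.loop v (mem_filter.1 hv).1, h2.vert, h2.cut⟩,
      Or.inr ⟨fun e he => (mem_filter.1 he).2, h3⟩⟩
    by_cases h4 : e ∈ G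
    · have h5 : ¬ 0 < y e := fun h => he (mem_filter.2 ⟨h4, h⟩)
      exact le_antisymm (not_lt.1 h5) (h2.nonneg e)
    · exact h2.supp e h4

end H70H
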