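import Pool.Agent.Lib.H70H.K1
import Mathlib.Analysis.Convex.Basic

/-! # H70H, chunk K2: `H63F.ac_line` with dimensions -/

set_option autoImplicit false

namespace H70H

open Finset H98P H63F H63H

variable {E : Type*} [Fintype E] [DecidableEq E]

/-- PROOF: copy of `H63F.ac_line` (file H63F/F2.lean), `AC` replaced by `ACk k`, `ac_congr` by `ack_congr`, `ac_union` by
`ack_union_same`. -/
theorem ack_line {k : ℕ} (I : Finset E → Set ℝ) (hc : ∀ s, IsCompact (I s)) (hv : ∀ s, Convex ℝ (I s))
    (ha : ∀ s t, s ⊆ t → I t ⊆ I s) (hne : (I ∅).Nonempty)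
    (h : ∀ t ∈ I ∅, ACk k fun s => t ∈ I s) : ACk k fun s => (I s).Nonempty := by
  classical
  -- the left end points
  obtain ⟨l, hl⟩ : ∃ l : Finset E → ℝ, ∀ s, (I s).Nonempty → IsLeast (I s) (l s) := by
    refine ⟨fun s => if hs : (I s).Nonempty then ((hc s).exists_isLeast hs).choose else 0,
      fun s hs => ?_⟩
    simp only [dif_pos hs]
    exact ((hc s).exists_isLeast hs).choose_spec
  obtain ⟨L, hL⟩ : ∃ L : Finset ℝ, ∀ x, x ∈ L ↔ ∃ s, (I s).Nonempty ∧ l s = x := by
    refine ⟨(univ.filter fun s => (I s).Nonempty).image l, fun x => ?_⟩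
    simp only [mem_image, mem_filter, mem_univ, true_and]
  have hLI : ∀ x ∈ L, x ∈ I ∅ := by
    intro x hx
    obtain ⟨s, hs, rfl⟩ := (hL x).1 hx
    exact ha ∅ s (empty_subset s) (hl s hs).1
  have hsub : ∀ s x, x ∈ I s → x ∈ I ∅ := fun s x hx => ha ∅ s (empty_subset s) hx
  have hdn : ∀ x, Dn fun s => x ∈ I s := fun x s s' hss hx => ha s s' hss hx
  have hdn' : ∀ x, Dn fun s => ∃ w ∈ I s, w ≤ x := by
    rintro x s s' hss ⟨w, hw, hwx⟩
    exact ⟨w, ha s s' hss hw, hwx⟩
  have key : ∀ n : ℕ, ∀ t ∈ L, (L.filter fun x => x < t).card = n →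
      ACk k fun s => ∃ w ∈ I s, w ≤ t := by
    intro n
    induction n using Nat.strong_induction_on with
    | _ n ih =>
      intro t ht hcard
      have htI := hLI t ht
      rcases (L.filter fun x => x < t).eq_empty_or_nonempty with he | hne'
      · -- `t` is the smallest end point
        refine ack_congr (fun s => ?_) (h t htI)
        constructor
        · exact fun hts => ⟨t, hts, le_rfl⟩
        · rintro ⟨w, hw, hwt⟩
          have hs : (I s).Nonempty := ⟨w, hw⟩
          have h1 : l s ≤ t := ((hl s hs).2 hw).trans hwt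
          have h2 : ¬ l s < t := by
            intro h3
            have h4 : l s ∈ L.filter fun x => x < t :=
              mem_filter.2 ⟨(hL _).2 ⟨s, hs, rfl⟩, h3⟩
            rw [he] at h4
            exact notMem_empty _ h4
          have h3 : l s = t := le_antisymm h1 (not_lt.1 h2)
          rw [← h3]
          exact (hl s hs).1
      · -- the previous end point
        obtain ⟨t', ht', hmax⟩ := exists_max_image _ id hne'
        obtain ⟨ht'L, ht't⟩ := mem_filter.1 ht'
        have hlt : (L.filter fun x => x < t').card < n := by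
          rw [← hcard]
          refine card_lt_card ⟨fun x hx => ?_, fun hh => ?_⟩
          · obtain ⟨h1, h2⟩ := mem_filter.1 hx
            exact mem_filter.2 ⟨h1, h2.trans ht't⟩
          · exact lt_irrefl t' (mem_filter.1 (hh ht')).2
        have a1 := ih _ hlt t' ht'L rfl
        have a2 := h t htI
        have hprev : ∀ s, (I s).Nonempty → l s < t → l s ≤ t' := fun s hs h1 =>
          hmax (l s) (mem_filter.2 ⟨(hL _).2 ⟨s, hs, rfl⟩, h1⟩)
        -- a point just below `t`
        obtain ⟨w, ⟨hw1, hw2⟩, hw3⟩ : ∃ w, ((∀ s, t ∉ I s → w ∉ I s) ∧ t' < w) ∧ w < t := by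
          have e1 : ∀ s : Finset E, ∀ᶠ w in nhds t, t ∉ I s → w ∉ I s := by
            intro s
            by_cases hs : t ∈ I s
            · exact Filter.Eventually.of_forall fun w hw => absurd hs hw
            · have h1 : (I s)ᶜ ∈ nhds t := (hc s).isClosed.isOpen_compl.mem_nhds hs
              filter_upwards [h1] with w hw _
              exact hw
          have e2 : ∀ᶠ w in nhds t, ∀ s : Finset E, t ∉ I s → w ∉ I s :=
            Filter.eventually_all.2 e1
          have e3 : ∀ᶠ w in nhds t, t' < w := lt_mem_nhds ht't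
          have e4 : ∀ᶠ w in nhdsWithin t (Set.Iio t),
              ((∀ s, t ∉ I s → w ∉ I s) ∧ t' < w) ∧ w < t := by
            filter_upwards [nhdsWithin_le_nhds e2, nhdsWithin_le_nhds e3,
              self_mem_nhdsWithin] with w h1 h2 h3
            exact ⟨⟨h1, h2⟩, h3⟩
          exact e4.exists
        have hord : ∀ s a b, a ∈ I s → b ∈ I s → a ≤ w → w ≤ b → w ∈ I s := by
          intro s a b ha' hb' h1 h2
          exact (hv s).ordConnected.out ha' hb' ⟨h1, h2⟩
        have hwI : w ∈ I ∅ := hord ∅ t' t (hLI t' ht'L) htI hw2.le hw3.le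
        have a12 : ACk k fun s => (∃ u ∈ I s, u ≤ t') ∧ t ∈ I s := by
          refine ack_congr (fun s => ?_) (h w hwI)
          constructor
          · intro hws
            have hs : (I s).Nonempty := ⟨w, hws⟩
            have h1 : l s ≤ w := (hl s hs).2 hws
            refine ⟨⟨l s, (hl s hs).1, hprev s hs (h1.trans_lt hw3)⟩, ?_⟩
            by_contra hts
            exact hw1 s hts hws
          · rintro ⟨⟨u, hu, hut⟩, hts⟩
            exact hord s u t hu hts (hut.trans hw2.le) hw3.le
        refine ack_congr (fun s => ?_) (ack_union_same (hdn' t') (hdn t) a1 a2 a12)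
        constructor
        · rintro (⟨u, hu, hut⟩ | hts)
          · exact ⟨u, hu, hut.trans ht't.le⟩
          · exact ⟨t, hts, le_rfl⟩
        · rintro ⟨u, hu, hut⟩
          have hs : (I s).Nonempty := ⟨u, hu⟩
          have h1 : l s ≤ t := ((hl s hs).2 hu).trans hut
          rcases h1.lt_or_eq with h2 | h2
          · exact Or.inl ⟨l s, (hl s hs).1, hprev s hs h2⟩
          · right
            rw [← h2]
            exact (hl s hs).1
  have hLne : L.Nonempty := ⟨l ∅, (hL _).2 ⟨∅, hne, rfl⟩⟩
  obtain ⟨t, ht, hmax⟩ := exists_max_image L id hLne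
  refine ack_congr (fun s => ?_) (key _ t ht rfl)
  constructor
  · rintro ⟨u, hu, -⟩
    exact ⟨u, hu⟩
  · intro hs
    exact ⟨l s, (hl s hs).1, hmax (l s) ((hL _).2 ⟨s, hs, rfl⟩)⟩

end H70H
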