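import Pool.Agent.Lib.H70H.K3

/-! # H70H, chunk K5: the minimizing families for the points of a simplex, with dimensions -/

set_option autoImplicit false

namespace H70H

open Finset H98P H63F H63H

variable {E C : Type*} [Fintype E] [DecidableEq E] [Fintype C] [DecidableEq C]

private theorem k5_compact {A : Type*} [Fintype A] (s : Finset A) : IsCompact (Sx s) := by
  have h1 : IsClosed (Sx s) := by
    have e : Sx s = (⋂ a, {x : A → ℝ | 0 ≤ x a}) ∩ ((⋂ a, ⋂ (_ : a ∉ s), {x : A → ℝ | x a = 0}) ∩
        {x : A → ℝ | ∑ a, x a = 1}) := by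
      ext x
      simp only [Sx, Set.mem_inter_iff, Set.mem_iInter, Set.mem_setOf_eq]
    rw [e]
    refine IsClosed.inter (isClosed_iInter fun a => ?_) (IsClosed.inter (isClosed_iInter fun a =>
      isClosed_iInter fun _ => ?_) ?_)
    · exact isClosed_le continuous_const (continuous_apply a)
    · exact isClosed_eq (continuous_apply a) continuous_const
    · exact isClosed_eq (continuous_finset_sum _ fun a _ => continuous_apply a) continuous_const
  refine IsCompact.of_isClosed_subset (isCompact_univ_pi fun _ : A => isCompact_Icc (a := (0 : ℝ)) (b := 1)) h1 ?_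
  rintro x ⟨h2, -, h3⟩ a -
  refine ⟨h2 a, ?_⟩
  rw [← h3]
  exact Finset.single_le_sum (f := x) (fun b _ => h2 b) (Finset.mem_univ a)

private theorem k5_convex {A : Type*} [Fintype A] (s : Finset A) : Convex ℝ (Sx s) := by
  rintro x ⟨h1, h2, h3⟩ y ⟨g1, g2, g3⟩ a b ha hb hab
  refine ⟨fun e => ?_, fun e he => ?_, ?_⟩
  · have := mul_nonneg ha (h1 e)
    have := mul_nonneg hb (g1 e)
    simp only [Pi.add_apply, Pi.smul_apply, smul_eq_mul]
    linarith
  · simp only [Pi.add_apply, Pi.smul_apply, smul_eq_mul, h2 e he, g2 e he, mul_zero, add_zero]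
  · simp only [Pi.add_apply, Pi.smul_apply, smul_eq_mul, Finset.sum_add_distrib, ← Finset.mul_sum, h3, g3]
    linarith

private theorem k5_mono {A : Type*} [Fintype A] {s t : Finset A} (h : s ⊆ t) : Sx s ⊆ Sx t := by
  rintro x ⟨h1, h2, h3⟩
  exact ⟨h1, fun e he => h2 e fun he' => he (h he'), h3⟩

private theorem k5_ne {A : Type*} [Fintype A] [DecidableEq A] {s : Finset A} (h : s.Nonempty) :
    (Sx s).Nonempty := by
  obtain ⟨a, ha⟩ := h
  refine ⟨Pi.single a 1, ?_, ?_, ?_⟩
  · intro e
    by_cases he : e = a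
    · subst he
      rw [Pi.single_eq_same]
      exact zero_le_one
    · rw [Pi.single_eq_of_ne he]
  · intro e he
    exact Pi.single_eq_of_ne (fun h => he (by rw [h]; exact ha)) _
  · rw [Finset.sum_pi_single']
    simp

private theorem k5_pay (p : E → C → ℝ) (q : C → ℝ) (x y : E → ℝ) (a b : ℝ) (hab : a + b = 1) (S : C) :
    pay p q (a • x + b • y) S = a * pay p q x S + b * pay p q y S := by
  have h1 : ∑ e, (a • x + b • y) e * p e S = a * ∑ e, x e * p e S + b * ∑ e, y e * p e S := by
    rw [Finset.mul_sum, Finset.mul_sum, ← Finset.sum_add_distrib]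
    refine Finset.sum_congr rfl fun e _ => ?_
    simp only [Pi.add_apply, Pi.smul_apply, smul_eq_mul]
    ring
  rw [pay, h1, pay, pay]
  have h2 : q S = a * q S + b * q S := by rw [← add_mul, hab, one_mul]
  linarith

/-- PROOF: copy of `H63F.ac_theta` (file H63F/F6a.lean, with its private lemmas) or of `H63H.ac_theta_on`; only the points of
`Sx G` are used there; `ac_conv` replaced by `ack_conv`. -/
theorem ack_theta {k : ℕ} (p : E → C → ℝ) (q : C → ℝ) (L : Finset C → Prop) (hL : Dn L) (hL0 : L ∅) {G : Finset E}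
    (hG : G.Nonempty) (ha : ∀ x ∈ Sx G, ACk k fun T : Finset C => L T ∧ Amin p q x T) :
    ACk k fun T : Finset C => L T ∧ ∃ x ∈ Sx G, Amin p q x T := by
  have key := ack_conv (E := C) (ι := E) (fun T => {x : E → ℝ | x ∈ Sx G ∧ L T ∧ Amin p q x T})
    (by
      intro T
      by_cases hT : L T
      · have e : {x : E → ℝ | x ∈ Sx G ∧ L T ∧ Amin p q x T} =
            Sx G ∩ ⋂ S ∈ T, ⋂ S', {x : E → ℝ | pay p q x S ≤ pay p q x S'} := by
          ext x
          simp only [Set.mem_setOf_eq, Set.mem_inter_iff, Set.mem_iInter, hT, true_and, Amin]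
        rw [e]
        refine (k5_compact G).inter_right (isClosed_iInter fun S => isClosed_iInter fun _ =>
          isClosed_iInter fun S' => ?_)
        have hc : ∀ S : C, Continuous fun x : E → ℝ => pay p q x S := by
          intro S
          unfold pay
          exact (continuous_finset_sum _ fun e _ => (continuous_apply e).mul continuous_const).add
            continuous_const
        exact isClosed_le (hc S) (hc S')
      · have e : {x : E → ℝ | x ∈ Sx G ∧ L T ∧ Amin p q x T} = ∅ := by
          ext x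
          simp [hT]
        rw [e]
        exact isCompact_empty)
    (by
      rintro T x ⟨h1, h2, h3⟩ y ⟨g1, _, g3⟩ a b ha0 hb0 hab
      refine ⟨k5_convex G h1 g1 ha0 hb0 hab, h2, fun S hS S' => ?_⟩
      rw [k5_pay p q x y a b hab, k5_pay p q x y a b hab]
      exact add_le_add (mul_le_mul_of_nonneg_left (h3 S hS S') ha0)
        (mul_le_mul_of_nonneg_left (g3 S hS S') hb0))
    (by
      rintro s t hst x ⟨h1, h2, h3⟩
      exact ⟨h1, hL s t hst h2, fun S hS => h3 S (hst hS)⟩)
    (by
      obtain ⟨x, hx⟩ := k5_ne hG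
      exact ⟨x, hx, hL0, fun S hS => absurd hS (Finset.notMem_empty S)⟩)
    (by
      rintro x ⟨hx, -, -⟩
      have e : (fun T : Finset C => x ∈ {x : E → ℝ | x ∈ Sx G ∧ L T ∧ Amin p q x T}) =
          fun T : Finset C => L T ∧ Amin p q x T := by
        funext T
        simp only [Set.mem_setOf_eq, hx, true_and]
      rw [e]
      exact ha x hx)
  have e : (fun T : Finset C => ({x : E → ℝ | x ∈ Sx G ∧ L T ∧ Amin p q x T}).Nonempty) =
      fun T : Finset C => L T ∧ ∃ x ∈ Sx G, Amin p q x T := by
    funext T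
    apply propext
    constructor
    · rintro ⟨x, h1, h2, h3⟩
      exact ⟨h2, x, h1, h3⟩
    · rintro ⟨h2, x, h1, h3⟩
      exact ⟨x, h1, h2, h3⟩
  rw [← e]
  exact key

end H70H
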