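import Pool.Agent.Lib.H70H.K1

/-! # H70H, chunk P1: the polygon without the diagonals at the last vertex; cones in the links -/

set_option autoImplicit false

namespace H70H

open Finset H98P H63F H63H

variable {N : ℕ}

private theorem p1_nc_symm {d e : Fin N × Fin N} (h : NC d e) : NC e d := ⟨h.2, h.1⟩

private theorem p1_nc_self (d : Fin N × Fin N) : NC d d :=
  ⟨fun h => lt_irrefl _ h.1, fun h => lt_irrefl _ h.1⟩

/-- The polygon complex is closed under subsets. -/
theorem dn_polU (X : Finset (Fin N)) (p : Fin N) (m : ℕ) : Dn (PolU X p m) := by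
  intro s t hst ht
  obtain ⟨⟨h1, h2⟩, h3⟩ := ht
  exact ⟨⟨fun d hd => h1 d (hst hd), fun d hd e he => h2 d (hst hd) e (hst he)⟩,
    fun d hd => h3 d (hst hd)⟩

/-- No diagonal at `p` (`p` = last vertex, `q` = the one before, `a` = first vertex, one more vertex): cone with apex `(a, q)`.
PROOF: `H63H.ac_cone`; every other member of `T` has `d.2 ≤ q` (`d.2 ≠ p`, since `¬ d.1 < 0`), so it does not cross `(a, q)`. -/
theorem pol_base {X : Finset (Fin N)} {a q p : Fin N} (ha : a ∈ X) (hq : q ∈ X) (hp : p ∈ X) (haq : a < q) (hqp : q < p)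
    (hmin : ∀ x ∈ X, a ≤ x) (hmax : ∀ x ∈ X, x ≤ p) (hgap : ∀ x ∈ X, x ≤ q ∨ x = p)
    (hc : ∃ c ∈ X, a < c ∧ c < q) : AC (PolU X p 0) := by
  refine H63H.ac_cone (a := (a, q)) ?_
  rintro T ⟨⟨h1, h2⟩, h3⟩
  have hne : ∀ d ∈ T, d.2 ≠ p := fun d hd h => absurd (h3 d hd h) (Nat.not_lt_zero _)
  have hnc : ∀ e ∈ T, NC (a, q) e := by
    intro e he
    obtain ⟨he1, he2, he3, _, _⟩ := h1 e he
    refine ⟨?_, ?_⟩
    · rintro ⟨_, _, h6⟩
      rcases hgap e.2 he2 with h | h
      · exact absurd h6 (not_lt.2 h)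
      · exact hne e he h
    · rintro ⟨h4, _, _⟩
      exact absurd h4 (not_lt.2 (hmin e.1 he1))
  refine ⟨⟨?_, ?_⟩, ?_⟩
  · intro d hd
    rcases mem_insert.1 hd with rfl | hd
    · exact ⟨ha, hq, haq, hc, p, hp, Or.inr hqp⟩
    · exact h1 d hd
  · intro d hd e he
    rcases mem_insert.1 hd with rfl | hd
    · rcases mem_insert.1 he with rfl | he
      · exact p1_nc_self _
      · exact hnc e he
    · rcases mem_insert.1 he with rfl | he
      · exact p1_nc_symm (hnc d hd)
      · exact h2 d hd e he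
  · intro d hd h
    rcases mem_insert.1 hd with rfl | hd
    · exact absurd h (ne_of_lt hqp)
    · exact h3 d hd h

/-- The link of the diagonal `(c, p)`, if there is a vertex of `X` between `c` and `q`: cone with apex `(c, q)`. PROOF: for
`T` in the link the members `d` do not cross `(c, p)`: `d.2 ≤ c`, or `c ≤ d.1` and `d.2 ≤ q` (if `d.2 = p` then `d.1 ≤ c`; `d.1 = c` is excluded by
`(c, p) ∉ T`), or `d.2 = p`, `d.1 < c`; none crosses `(c, q)`. -/
theorem pol_link {X : Finset (Fin N)} {a c q p : Fin N} (ha : a ∈ X) (hc : c ∈ X) (hq : q ∈ X) (hp : p ∈ X) (hac : a < c)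
    (hqp : q < p) (hmax : ∀ x ∈ X, x ≤ p) (hgap : ∀ x ∈ X, x ≤ q ∨ x = p)
    (hcq : ∃ d ∈ X, c < d ∧ d < q) :
    AC fun T => PolU X p (c + 1) (insert (c, p) T) ∧ (c, p) ∉ T := by
  refine H63H.ac_cone (a := (c, q)) ?_
  rintro T ⟨⟨⟨h1, h2⟩, h3⟩, h4⟩
  have hcq' : c < q := by
    obtain ⟨d, _, h5, h6⟩ := hcq
    exact h5.trans h6
  have hnc : ∀ e ∈ insert (c, p) T, NC (c, q) e := by
    intro e he
    rcases mem_insert.1 he with rfl | heT
    · exact ⟨fun h => lt_irrefl _ h.1, fun h => lt_irrefl _ h.1⟩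
    · obtain ⟨he1, he2, he3, _, _⟩ := h1 e he
      refine ⟨?_, ?_⟩
      · rintro ⟨h5, _, h7⟩
        rcases hgap e.2 he2 with h | h
        · exact absurd h7 (not_lt.2 h)
        · have h8 := h3 e he h
          have h9 : (c : ℕ) < (e.1 : ℕ) := h5
          omega
      · rintro ⟨h5, h6, h7⟩
        exact (h2 (c, p) (mem_insert_self _ _) e he).2 ⟨h5, h6, lt_trans h7 hqp⟩
  have hmem : ∀ d ∈ insert (c, p) (insert (c, q) T), d = (c, q) ∨ d ∈ insert (c, p) T := by
    intro d hd
    rcases mem_insert.1 hd with rfl | hd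
    · exact Or.inr (mem_insert_self _ _)
    · rcases mem_insert.1 hd with rfl | hd
      · exact Or.inl rfl
      · exact Or.inr (mem_insert_of_mem hd)
  refine ⟨⟨⟨?_, ?_⟩, ?_⟩, ?_⟩
  · intro d hd
    rcases hmem d hd with rfl | hd
    · exact ⟨hc, hq, hcq', hcq, p, hp, Or.inr hqp⟩
    · exact h1 d hd
  · intro d hd e he
    rcases hmem d hd with rfl | hd
    · rcases hmem e he with rfl | he
      · exact p1_nc_self _
      · exact hnc e he
    · rcases hmem e he with rfl | he
      · exact p1_nc_symm (hnc d hd)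
      · exact h2 d hd e he
  · intro d hd h
    rcases hmem d hd with rfl | hd
    · exact absurd h (ne_of_lt hqp)
    · exact h3 d hd h
  · intro h
    rcases mem_insert.1 h with h5 | h5
    · have h6 : p = q := congrArg Prod.snd h5
      exact absurd h6 (ne_of_gt hqp)
    · exact h4 h5

end H70H
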