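import Pool.Agent.Lib.H70H.P1

/-! # H70H, chunk P2: the link of the last diagonal -/

set_option autoImplicit false

namespace H70H

open Finset H98P H63F H63H

variable {N : ℕ}

/-- The link of the last diagonal `(c, p)` (`q` is the only vertex between `c` and `p`) is the polygon without `q`. PROOF:
`→`: a member `d` of `T` has `d.1 ≠ q` (`(q, p)` is no diagonal: nothing between), `d.2 ≠ q` (else it crosses `(c, p)` or `d = (c, q)` has nothing
between), the vertex between `d.1` and `d.2` may be chosen `≠ q` (if it is `q` then `d.2 = p`, `d.1 ≤ c`, `d.1 ≠ c`, take `c`), the vertex outside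
too. `←`: a diagonal `d` of `X.erase q` has `d.2 ≤ c` or `d.2 = p`; if `d.2 = p` then `d.1 < c`; it does not cross `(c, p)`. -/
theorem pol_last {X : Finset (Fin N)} {a c q p : Fin N} (ha : a ∈ X) (hc : c ∈ X) (hq : q ∈ X) (hp : p ∈ X) (hac : a < c)
    (hcq : c < q) (hqp : q < p) (hmin : ∀ x ∈ X, a ≤ x) (hmax : ∀ x ∈ X, x ≤ p)
    (hgap : ∀ x ∈ X, x ≤ c ∨ x = q ∨ x = p) (T : Finset (Fin N × Fin N)) :
    (PolU X p (c + 1) (insert (c, p) T) ∧ (c, p) ∉ T) ↔ Pol (X.erase q) T := by
  constructor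
  · rintro ⟨⟨⟨hD, hN⟩, hU⟩, hcp⟩
    refine ⟨fun d hd => ?_, fun d hd e he => hN d (Finset.mem_insert_of_mem hd) e (Finset.mem_insert_of_mem he)⟩
    obtain ⟨h1, h2, h12, ⟨b, hb, hb1, hb2⟩, ⟨o, ho, ho'⟩⟩ := hD d (Finset.mem_insert_of_mem hd)
    have hnc := (hN d (Finset.mem_insert_of_mem hd) (c, p) (Finset.mem_insert_self _ _)).1
    have hU1 : d.2 = p → d.1 ≤ c := fun h => Fin.le_def.2 (Nat.lt_succ_iff.1 (hU d (Finset.mem_insert_of_mem hd) h))
    have hne : ¬ (d.1 = c ∧ d.2 = p) := by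
      rintro ⟨h3, h4⟩
      apply hcp
      rw [← h3, ← h4]
      exact hd
    have h1q : d.1 ≠ q := by
      intro h
      rw [h] at h12
      rcases hgap d.2 h2 with h3 | h3 | h3
      · exact absurd (h12.trans_le h3) (not_lt.2 hcq.le)
      · exact absurd h3 h12.ne'
      · exact absurd (h ▸ hU1 h3) (not_le.2 hcq)
    have h2q : d.2 ≠ q := by
      intro h
      rcases hgap d.1 h1 with h3 | h3 | h3
      · rcases lt_or_eq_of_le h3 with h4 | h4
        · exact hnc ⟨h4, h ▸ hcq, h ▸ hqp⟩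
        · rw [h] at hb2
          rw [h4] at hb1
          rcases hgap b hb with h5 | h5 | h5
          · exact absurd hb1 (not_lt.2 h5)
          · exact absurd h5 hb2.ne
          · exact absurd (h5 ▸ hb2) (not_lt.2 hqp.le)
      · exact h1q h3
      · rw [h3, h] at h12
        exact absurd h12 (not_lt.2 hqp.le)
    refine ⟨Finset.mem_erase.2 ⟨h1q, h1⟩, Finset.mem_erase.2 ⟨h2q, h2⟩, h12, ?_, ?_⟩
    · by_cases hbq : b = q
      · have h3 : d.2 = p := by
          rw [hbq] at hb2
          rcases hgap d.2 h2 with h4 | h4 | h4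
          · exact absurd (hcq.trans hb2) (not_lt.2 h4)
          · exact absurd h4 h2q
          · exact h4
        have h4 : d.1 < c := lt_of_le_of_ne (hU1 h3) (fun h => hne ⟨h, h3⟩)
        exact ⟨c, Finset.mem_erase.2 ⟨hcq.ne, hc⟩, h4, by rw [h3]; exact hcq.trans hqp⟩
      · exact ⟨b, Finset.mem_erase.2 ⟨hbq, hb⟩, hb1, hb2⟩
    · by_cases hoq : o = q
      · refine ⟨p, Finset.mem_erase.2 ⟨hqp.ne', hp⟩, Or.inr ?_⟩
        rcases ho' with h3 | h3
        · rw [hoq] at h3
          rcases hgap d.1 h1 with h4 | h4 | h4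
          · exact absurd (hcq.trans h3) (not_lt.2 h4)
          · exact absurd h4 h1q
          · exact absurd (h4 ▸ h12) (not_lt.2 (hmax d.2 h2))
        · rw [hoq] at h3
          exact h3.trans hqp
      · exact ⟨o, Finset.mem_erase.2 ⟨hoq, ho⟩, ho'⟩
  · rintro ⟨hD, hN⟩
    have hgap' : ∀ x ∈ X.erase q, x ≤ c ∨ x = p := by
      intro x hx
      rw [Finset.mem_erase] at hx
      rcases hgap x hx.2 with h | h | h
      · exact Or.inl h
      · exact absurd h hx.1
      · exact Or.inr h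
    have hcp : (c, p) ∉ T := by
      intro h
      obtain ⟨-, -, -, ⟨b, hb, hb1, hb2⟩, -⟩ := hD _ h
      rcases hgap' b hb with h1 | h1
      · exact absurd hb1 (not_lt.2 h1)
      · exact absurd h1 (ne_of_lt hb2)
    have hA : ∀ d ∈ T, NC d (c, p) := by
      intro d hd
      obtain ⟨h1, h2, h12, -, -⟩ := hD d hd
      refine ⟨?_, ?_⟩
      · rintro ⟨-, h3, h4⟩
        rcases hgap' d.2 h2 with h5 | h5
        · exact absurd h3 (not_lt.2 h5)
        · exact absurd h5 (ne_of_lt h4)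
      · rintro ⟨-, -, h3⟩
        exact absurd h3 (not_lt.2 (hmax d.2 (Finset.mem_of_mem_erase h2)))
    refine ⟨⟨⟨fun d hd => ?_, fun d hd e he => ?_⟩, fun d hd hdp => ?_⟩, hcp⟩
    · rcases Finset.mem_insert.1 hd with h | h
      · rw [h]
        exact ⟨hc, hp, hcq.trans hqp, ⟨q, hq, hcq, hqp⟩, ⟨a, ha, Or.inl hac⟩⟩
      · obtain ⟨h1, h2, h12, ⟨b, hb, hb'⟩, ⟨o, ho, ho'⟩⟩ := hD d h
        exact ⟨Finset.mem_of_mem_erase h1, Finset.mem_of_mem_erase h2, h12, ⟨b, Finset.mem_of_mem_erase hb, hb'⟩,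
          ⟨o, Finset.mem_of_mem_erase ho, ho'⟩⟩
    · rcases Finset.mem_insert.1 hd with h | h
      · rcases Finset.mem_insert.1 he with h' | h'
        · rw [h, h']
          exact ⟨fun h3 => lt_irrefl _ h3.1, fun h3 => lt_irrefl _ h3.1⟩
        · rw [h]
          exact ⟨(hA e h').2, (hA e h').1⟩
      · rcases Finset.mem_insert.1 he with h' | h'
        · rw [h']
          exact hA d h
        · exact hN d h e h'
    · rcases Finset.mem_insert.1 hd with h | h
      · rw [h]
        exact Nat.lt_succ_self _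
      · obtain ⟨h1, h2, h12, -, -⟩ := hD d h
        rcases hgap' d.1 h1 with h5 | h5
        · exact Nat.lt_succ_iff.2 (Fin.le_def.1 h5)
        · rw [h5, hdp] at h12
          exact absurd h12 (lt_irrefl _)

end H70H
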