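import Pool.Agent.Lib.H70H.P2

/-! # H70H, chunk P3: the polygon complex (boundary of the associahedron) -/

set_option autoImplicit false

namespace H70H

open Finset H98P H63F H63H

variable {N : ℕ}

theorem p3_min {X : Finset (Fin N)} (hX : 0 < X.card) : ∃ a ∈ X, ∀ x ∈ X, a ≤ x :=
  ⟨X.min' (card_pos.1 hX), X.min'_mem _, fun x hx => X.min'_le x hx⟩

theorem p3_max {X : Finset (Fin N)} (hX : 0 < X.card) : ∃ p ∈ X, ∀ x ∈ X, x ≤ p :=
  ⟨X.max' (card_pos.1 hX), X.max'_mem _, fun x hx => X.le_max' x hx⟩

/-- the first vertex, the last two vertices and one more -/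
theorem p3_pts {X : Finset (Fin N)} (hX : 4 ≤ X.card) : ∃ a ∈ X, ∃ q ∈ X, ∃ p ∈ X,
    a < q ∧ q < p ∧ (∀ x ∈ X, a ≤ x) ∧ (∀ x ∈ X, x ≤ p) ∧ (∀ x ∈ X, x ≤ q ∨ x = p) ∧
      ∃ c ∈ X, a < c ∧ c < q := by
  obtain ⟨a, ha, hmin⟩ := p3_min (X := X) (by omega)
  obtain ⟨p, hp, hmax⟩ := p3_max (X := X) (by omega)
  have h1 : (X.erase p).card = X.card - 1 := card_erase_of_mem hp
  obtain ⟨q, hq, hq'⟩ := p3_max (X := X.erase p) (by omega)
  have hqX : q ∈ X := mem_of_mem_erase hq
  have h2 : ((X.erase p).erase q).card = X.card - 2 := by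
    rw [card_erase_of_mem hq, h1]
    omega
  have h3 : 0 < (((X.erase p).erase q).erase a).card := by
    have := pred_card_le_card_erase (s := (X.erase p).erase q) (a := a)
    omega
  obtain ⟨c, hc⟩ := card_pos.1 h3
  simp only [mem_erase] at hc
  obtain ⟨hca, hcq, hcp, hcX⟩ := hc
  have hgap : ∀ x ∈ X, x ≤ q ∨ x = p := by
    intro x hx
    by_cases hxp : x = p
    · exact Or.inr hxp
    · exact Or.inl (hq' x (mem_erase.2 ⟨hxp, hx⟩))
  have hqp : q < p := lt_of_le_of_ne (hmax q hqX) (ne_of_mem_erase hq)
  have hac : a < c := lt_of_le_of_ne (hmin c hcX) (Ne.symm hca)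
  have hcq' : c < q := by
    rcases hgap c hcX with h | h
    · exact lt_of_le_of_ne h hcq
    · exact absurd h hcp
  exact ⟨a, ha, q, hqX, p, hp, hac.trans hcq', hqp, hmin, hmax, hgap, c, hcX, hac, hcq'⟩

/-- PROOF. Induction on `k`. `k = 0` (4 vertices `a < c < q < p`): `ack_zero` with the diagonal `(a, q)`. `k + 1`: `p` = max, `q` = max of the
rest, `a` = min. Claim: `ACk (k + 1) (PolU X p m)` for all `m : ℕ`, by induction on `m`: `m = 0`: `pol_base`. `m + 1`: if `(c, p)`, `c = m`, is
not a diagonal of `X` then `PolU X p (m + 1)` and `PolU X p m` have the same members; otherwise `ack_add` with `d = (c, p)`: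
`PolU X p (m + 1) T ∧ (c, p) ∉ T ↔ PolU X p m T`, and the link is `AC` by `pol_link`, or, if `q` is the only vertex between `c` and `p`,
`Pol (X.erase q)` (`pol_last`), `ACk k` by induction. At the end `PolU X p N T ↔ Pol X T`. -/
theorem ack_pol {k : ℕ} (X : Finset (Fin N)) (hX : X.card = k + 4) : ACk k (Pol X) := by
  induction k generalizing X with
  | zero =>
    obtain ⟨a, ha, q, hq, p, hp, haq, hqp, -, -, -, c, hc, hac, hcq⟩ := p3_pts (X := X) (by omega)
    refine ack_zero (d := (a, q)) ⟨?_, ?_⟩
    · intro d hd
      rw [mem_singleton.1 hd]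
      exact ⟨ha, hq, haq, ⟨c, hc, hac, hcq⟩, p, hp, Or.inr hqp⟩
    · intro d hd e he
      rw [mem_singleton.1 hd, mem_singleton.1 he]
      exact ⟨fun h => lt_irrefl _ h.1, fun h => lt_irrefl _ h.1⟩
  | succ k ih =>
    obtain ⟨a, ha, q, hq, p, hp, haq, hqp, hmin, hmax, hgap, hc⟩ := p3_pts (X := X) (by omega)
    have key : ∀ m : ℕ, ACk (k + 1) (PolU X p m) := by
      intro m
      induction m with
      | zero => exact ack_of_ac _ (pol_base ha hq hp haq hqp hmin hmax hgap hc)
      | succ m ihm =>
        by_cases hD : ∃ c : Fin N, (c : ℕ) = m ∧ Dg X (c, p)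
        · obtain ⟨c, rfl, hDc⟩ := hD
          refine ack_add (dn_polU X p _) (c, p) ?_ ?_
          · refine ack_congr (fun s => ?_) ihm
            constructor
            · rintro ⟨h1, h2⟩
              refine ⟨⟨h1, fun d hd hdp => (h2 d hd hdp).trans (Nat.lt_succ_self _)⟩, fun hcp => ?_⟩
              exact lt_irrefl _ (h2 _ hcp rfl)
            · rintro ⟨⟨h1, h2⟩, h3⟩
              refine ⟨h1, fun d hd hdp => ?_⟩
              rcases Nat.lt_succ_iff_lt_or_eq.1 (h2 d hd hdp) with h | h
              · exact h
              · exfalso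
                apply h3
                have : d = (c, p) := Prod.ext (Fin.ext h) hdp
                rwa [← this]
          · obtain ⟨hcX, -, hcp, ⟨x, hx, hcx, hxp⟩, y, hy, hyc⟩ := hDc
            simp only at hcX hcp hcx hxp hyc
            have hac : a < c := by
              rcases hyc with h | h
              · exact lt_of_le_of_lt (hmin y hy) h
              · exact absurd (hmax y hy) (not_le.2 h)
            by_cases hcq : ∃ d ∈ X, c < d ∧ d < q
            · exact ack_of_ac _ (pol_link ha hcX hq hp hac hqp hmax hgap hcq)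
            · have hxq : x ≤ q := by
                rcases hgap x hx with h | h
                · exact h
                · exact absurd h hxp.ne
              have hcq' : c < q := lt_of_lt_of_le hcx hxq
              have hgap' : ∀ x ∈ X, x ≤ c ∨ x = q ∨ x = p := by
                intro z hz
                rcases hgap z hz with h | h
                · rcases h.lt_or_eq with h' | h'
                  · left
                    by_contra hcz
                    exact hcq ⟨z, hz, not_le.1 hcz, h'⟩
                  · exact Or.inr (Or.inl h')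
                · exact Or.inr (Or.inr h)
              refine ack_congr (fun s => (pol_last ha hcX hq hp hac hcq' hqp hmin hmax hgap' s).symm)
                (ih (X.erase q) ?_)
              rw [card_erase_of_mem hq]
              omega
        · refine ack_congr (fun s => ?_) ihm
          constructor
          · rintro ⟨h1, h2⟩
            exact ⟨h1, fun d hd hdp => (h2 d hd hdp).trans (Nat.lt_succ_self _)⟩
          · rintro ⟨h1, h2⟩
            refine ⟨h1, fun d hd hdp => ?_⟩
            rcases Nat.lt_succ_iff_lt_or_eq.1 (h2 d hd hdp) with h | h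
            · exact h
            · exfalso
              apply hD
              refine ⟨d.1, h, ?_⟩
              rw [← hdp]
              exact h1.1 d hd
    refine ack_congr (fun s => ?_) (key N)
    exact ⟨fun h => h.1, fun h => ⟨h, fun d _ _ => d.1.2⟩⟩

end H70H
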