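import Pool.Agent.Lib.H70H.D
import Pool.Agent.Lib.H63H.B1

/-! # H70H, chunk W2: the tight cuts of a Hamiltonian cycle are the arcs -/

set_option autoImplicit false

namespace H70H

open Finset H98P H63F H63H

variable {V : Type*} [Fintype V] [DecidableEq V]

/-- A set of positions which does not contain `0`, with exactly one position `a` such that `a ∉ P`, `a + 1 ∈ P`, is an interval
`(a, b]`. PROOF: `b` = the largest element; if `a < i ≤ b`, `i ∉ P`, then between `i` and `b` there is a second position of this kind. -/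
theorem interval_of {n : ℕ} {P : Finset (Fin n)} (hne : P.Nonempty) (h0 : ∀ i ∈ P, (i : ℕ) ≠ 0)
    (h : ∀ i j i' j' : Fin n, (i : ℕ) + 1 = j → i ∉ P → j ∈ P → (i' : ℕ) + 1 = j' → i' ∉ P → j' ∈ P → i = i') :
    ∃ a b : Fin n, a < b ∧ ∀ i, i ∈ P ↔ a < i ∧ i ≤ b := by
  have hm : P.min' hne ∈ P := Finset.min'_mem P hne
  have hM : P.max' hne ∈ P := Finset.max'_mem P hne
  have hm0 := h0 _ hm
  have hmn := (P.min' hne).2
  set m := P.min' hne with hmd
  set M := P.max' hne with hMd
  set a : Fin n := ⟨(m : ℕ) - 1, by omega⟩ with ha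
  have ham : (a : ℕ) + 1 = m := by
    rw [ha]
    simp only
    omega
  have haP : a ∉ P := by
    intro h1
    have h2 : m ≤ a := Finset.min'_le P a h1
    have h3 : (m : ℕ) ≤ a := h2
    omega
  have hmM : (m : ℕ) ≤ M := Finset.min'_le P M hM
  refine ⟨a, M, ?_, fun i => ⟨fun hi => ⟨?_, Finset.le_max' P i hi⟩, fun hi => ?_⟩⟩
  · show (a : ℕ) < M
    omega
  · have h1 : m ≤ i := Finset.min'_le P i hi
    have h2 : (m : ℕ) ≤ i := h1
    show (a : ℕ) < i
    omega
  · by_contra hiP
    have hai : (a : ℕ) < i := hi.1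
    have hiM : (i : ℕ) ≤ M := hi.2
    have hiM' : i ≠ M := fun h1 => hiP (h1 ▸ hM)
    have hiM'' : (i : ℕ) < M := by
      rcases hiM.lt_or_eq with h1 | h1
      · exact h1
      · exact absurd (Fin.ext h1) hiM'
    have hne2 : (P.filter fun k => i < k).Nonempty := ⟨M, Finset.mem_filter.2 ⟨hM, hiM''⟩⟩
    have hj := Finset.min'_mem _ hne2
    set j := (P.filter fun k => i < k).min' hne2 with hjd
    obtain ⟨hjP, hij⟩ := Finset.mem_filter.1 hj
    have hij' : (i : ℕ) < j := hij
    have hjn := j.2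
    set k : Fin n := ⟨(j : ℕ) - 1, by omega⟩ with hk
    have hkj : (k : ℕ) + 1 = j := by
      rw [hk]
      simp only
      omega
    have hkP : k ∉ P := by
      intro h1
      by_cases h2 : k = i
      · exact hiP (h2 ▸ h1)
      · have h3 : (k : ℕ) ≠ i := fun h4 => h2 (Fin.ext h4)
        have h4 : j ≤ k := Finset.min'_le _ k (Finset.mem_filter.2 ⟨h1, by show (i : ℕ) < k; omega⟩)
        have h5 : (j : ℕ) ≤ k := h4
        omega
    have h6 := h a m k j ham haP hm hkj hkP hjP
    have h7 : (a : ℕ) = k := congrArg Fin.val h6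
    omega

/-- the cut as a sum over pairs of positions -/
private theorem w2_sum {y : Sym2 V → ℝ} {n : ℕ} {w : Fin n → V} (h : HamW y w) (S : Finset V) :
    cutw y S = ∑ p ∈ (univ.filter fun i => w i ∈ S) ×ˢ (univ.filter fun i => w i ∉ S),
      y s(w p.1, w p.2) := by
  have hS : S = (univ.filter fun i => w i ∈ S).map ⟨w, h.bij.1⟩ := by
    ext a
    obtain ⟨i, rfl⟩ := h.bij.2 a
    simp only [Finset.mem_map, Finset.mem_filter, Finset.mem_univ, true_and,
      Function.Embedding.coeFn_mk]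
    constructor
    · intro h1
      exact ⟨i, h1, rfl⟩
    · rintro ⟨j, h1, h2⟩
      rwa [← h2]
  have hS' : univ \ S = (univ.filter fun i => w i ∉ S).map ⟨w, h.bij.1⟩ := by
    ext a
    obtain ⟨i, rfl⟩ := h.bij.2 a
    simp only [Finset.mem_map, Finset.mem_filter, Finset.mem_univ, true_and, Finset.mem_sdiff,
      Function.Embedding.coeFn_mk]
    constructor
    · intro h1
      exact ⟨i, h1, rfl⟩
    · rintro ⟨j, h1, h2⟩
      rwa [← h2]
  have key : ∀ g : V → ℝ, ∑ a ∈ S, g a = ∑ i ∈ (univ.filter fun i => w i ∈ S), g (w i) := by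
    intro g
    conv_lhs => rw [hS]
    rw [Finset.sum_map]
    rfl
  have key' : ∀ g : V → ℝ, ∑ a ∈ univ \ S, g a = ∑ i ∈ (univ.filter fun i => w i ∉ S), g (w i) := by
    intro g
    conv_lhs => rw [hS']
    rw [Finset.sum_map]
    rfl
  rw [cutw_ew, Finset.sum_product]
  unfold ew
  rw [key]
  exact Finset.sum_congr rfl fun i _ => key' _

/-- PROOF: `cutw_ew`, `cutw y S = ∑ a ∈ S, ∑ b ∈ univ \ S, y s(a, b)` as a sum over positions. `←`: for `S = w '' (a, b]` exactly the pairs `(a, a + 1)` and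
`(b, b + 1)` (or `(b, 0)` if `b = n - 1`) contribute. `→`: if there are two positions `i ≠ i'` with `w i ∉ S`, `w (i + 1) ∈ S`, then the edges
`(i, i + 1)`, `(i', i' + 1)` and the edge after the last element of `S` (position `b ∈ S`, `b` maximal: `(b, b + 1)` or `(b, 0)`) give `cutw y S ≥ 3`. So
`interval_of`. -/
theorem tight_iff {y : Sym2 V → ℝ} {n : ℕ} {w : Fin n → V} (h : HamW y w) (hn : 3 ≤ n) {S : Finset V} (hne : S.Nonempty)
    (h0 : ∀ i : Fin n, (i : ℕ) = 0 → w i ∉ S) :
    cutw y S = 2 ↔ ∃ a b : Fin n, a < b ∧ ∀ i, w i ∈ S ↔ a < i ∧ i ≤ b := by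
  -- the next position
  have hnext : ∀ b : Fin n, ∃ c : Fin n, ((b : ℕ) + 1 = c ∨ ((c : ℕ) = 0 ∧ (b : ℕ) + 1 = n)) := by
    intro b
    by_cases hb : (b : ℕ) + 1 < n
    · exact ⟨⟨(b : ℕ) + 1, hb⟩, Or.inl rfl⟩
    · exact ⟨⟨0, by omega⟩, Or.inr ⟨rfl, by have := b.2; omega⟩⟩
  have hyn : ∀ b c : Fin n, ((b : ℕ) + 1 = c ∨ ((c : ℕ) = 0 ∧ (b : ℕ) + 1 = n)) →
      y s(w b, w c) = 1 := by
    rintro b c (h1 | ⟨h1, h2⟩)
    · exact h.adj b c h1
    · exact h.close c b h1 h2
  constructor
  · intro hcut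
    rw [w2_sum h] at hcut
    set P : Finset (Fin n) := univ.filter fun i => w i ∈ S with hP
    have hPm : ∀ i, i ∈ P ↔ w i ∈ S := fun i => by rw [hP, Finset.mem_filter]; simp
    have hPne : P.Nonempty := by
      obtain ⟨a, ha⟩ := hne
      obtain ⟨i, rfl⟩ := h.bij.2 a
      exact ⟨i, (hPm i).2 ha⟩
    have hP0 : ∀ i ∈ P, (i : ℕ) ≠ 0 := fun i hi h1 => h0 i h1 ((hPm i).1 hi)
    obtain ⟨a, b, hab, hiff⟩ := interval_of hPne hP0 (by
      intro i j i' j' hij hi hj hij' hi' hj'
      by_contra hii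
      -- the largest element
      have hM : P.max' hPne ∈ P := Finset.max'_mem P hPne
      set M := P.max' hPne with hMd
      obtain ⟨c, hc⟩ := hnext M
      have hcP : c ∉ P := by
        intro h1
        rcases hc with h2 | ⟨h2, -⟩
        · have h3 : c ≤ M := Finset.le_max' P c h1
          have h4 : (c : ℕ) ≤ M := h3
          omega
        · exact hP0 c h1 h2
      have hsub : ({(j, i), (j', i'), (M, c)} : Finset (Fin n × Fin n)) ⊆
          P ×ˢ (univ.filter fun i => w i ∉ S) := by
        intro p hp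
        simp only [Finset.mem_insert, Finset.mem_singleton] at hp
        rcases hp with rfl | rfl | rfl
        · exact Finset.mem_product.2 ⟨hj, Finset.mem_filter.2 ⟨Finset.mem_univ _, fun h1 => hi ((hPm _).2 h1)⟩⟩
        · exact Finset.mem_product.2 ⟨hj', Finset.mem_filter.2 ⟨Finset.mem_univ _, fun h1 => hi' ((hPm _).2 h1)⟩⟩
        · exact Finset.mem_product.2 ⟨hM, Finset.mem_filter.2 ⟨Finset.mem_univ _, fun h1 => hcP ((hPm _).2 h1)⟩⟩
      have h1 : (j, i) ∉ ({(j', i'), (M, c)} : Finset (Fin n × Fin n)) := by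
        simp only [Finset.mem_insert, Finset.mem_singleton, Prod.mk.injEq, not_or, not_and]
        refine ⟨fun _ h2 => hii h2, fun h2 h3 => ?_⟩
        have h4 : (j : ℕ) = M := congrArg Fin.val h2
        have h5 : (i : ℕ) = c := congrArg Fin.val h3
        rcases hc with h6 | ⟨h6, h7⟩ <;> omega
      have h2 : (j', i') ∉ ({(M, c)} : Finset (Fin n × Fin n)) := by
        simp only [Finset.mem_singleton, Prod.mk.injEq, not_and]
        intro h2 h3
        have h4 : (j' : ℕ) = M := congrArg Fin.val h2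
        have h5 : (i' : ℕ) = c := congrArg Fin.val h3
        rcases hc with h6 | ⟨h6, h7⟩ <;> omega
      have h3 := Finset.sum_le_sum_of_subset_of_nonneg (f := fun p : Fin n × Fin n => y s(w p.1, w p.2))
        hsub (fun p _ _ => h.nonneg _)
      rw [hcut, Finset.sum_insert h1, Finset.sum_insert h2, Finset.sum_singleton] at h3
      simp only at h3
      have h4 : y s(w j, w i) = 1 := by
        rw [Sym2.eq_swap]
        exact h.adj i j hij
      have h5 : y s(w j', w i') = 1 := by
        rw [Sym2.eq_swap]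
        exact h.adj i' j' hij'
      rw [h4, h5, hyn M c hc] at h3
      norm_num at h3)
    exact ⟨a, b, hab, fun i => by rw [← hPm, hiff]⟩
  · rintro ⟨a, b, hab, hiff⟩
    have hab' : (a : ℕ) < b := hab
    obtain ⟨c, hc⟩ := hnext b
    have hbn := b.2
    set a' : Fin n := ⟨(a : ℕ) + 1, by omega⟩ with ha'
    have ha'v : (a' : ℕ) = a + 1 := rfl
    rw [w2_sum h]
    have hval : ∀ p ∈ (univ.filter fun i => w i ∈ S) ×ˢ (univ.filter fun i => w i ∉ S),
        y s(w p.1, w p.2) = (if p = (a', a) then (1 : ℝ) else 0) + (if p = (b, c) then (1 : ℝ) else 0) := by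
      rintro ⟨i, j⟩ hp
      rw [Finset.mem_product, Finset.mem_filter, Finset.mem_filter] at hp
      obtain ⟨⟨-, hi⟩, -, hj⟩ := hp
      simp only at hi hj
      obtain ⟨hi1, hi2⟩ := (hiff i).1 hi
      have hi1' : (a : ℕ) < i := hi1
      have hi2' : (i : ℕ) ≤ b := hi2
      have hj' : ¬ ((a : ℕ) < j ∧ (j : ℕ) ≤ b) := fun h1 => hj ((hiff j).2 h1)
      have hin := i.2
      have hjn := j.2
      have hcn := c.2
      simp only [Prod.mk.injEq, Fin.ext_iff, ha'v]
      by_cases h1 : (i : ℕ) = a + 1 ∧ (j : ℕ) = a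
      · have h2 : ¬ ((i : ℕ) = b ∧ (j : ℕ) = c) := by
          rintro ⟨h3, h4⟩
          rcases hc with h5 | ⟨h5, h6⟩ <;> omega
        rw [if_pos h1, if_neg h2, add_zero, Sym2.eq_swap]
        exact h.adj j i (by omega)
      · rw [if_neg h1, zero_add]
        by_cases h2 : (i : ℕ) = b ∧ (j : ℕ) = c
        · rw [if_pos h2]
          apply hyn
          rw [h2.1, h2.2]
          exact hc
        · rw [if_neg h2]
          rcases le_total (i : ℕ) j with h3 | h3
          · apply h.zero i j h3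
            · intro h4
              apply h2
              rcases hc with h5 | ⟨h5, h6⟩ <;> omega
            · rintro ⟨h4, h5⟩
              omega
          · rw [Sym2.eq_swap]
            apply h.zero j i h3
            · intro h4
              apply h1
              omega
            · rintro ⟨h4, h5⟩
              apply h2
              rcases hc with h5 | ⟨h5, h6⟩ <;> omega
    rw [Finset.sum_congr rfl hval, Finset.sum_add_distrib, Finset.sum_ite_eq', Finset.sum_ite_eq',
      if_pos, if_pos]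
    · norm_num
    · rw [Finset.mem_product, Finset.mem_filter, Finset.mem_filter]
      refine ⟨⟨Finset.mem_univ _, (hiff b).2 ⟨hab, le_refl b⟩⟩, Finset.mem_univ _, fun h1 => ?_⟩
      obtain ⟨h2, h3⟩ := (hiff c).1 h1
      have h2' : (a : ℕ) < c := h2
      have h3' : (c : ℕ) ≤ b := h3
      rcases hc with h5 | ⟨h5, h6⟩ <;> omega
    · rw [Finset.mem_product, Finset.mem_filter, Finset.mem_filter]
      refine ⟨⟨Finset.mem_univ _, (hiff a').2 ⟨?_, ?_⟩⟩, Finset.mem_univ _, fun h1 => ?_⟩
      · show (a : ℕ) < a'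
        omega
      · show (a' : ℕ) ≤ b
        omega
      · obtain ⟨h2, -⟩ := (hiff a).1 h1
        exact lt_irrefl _ h2

end H70H
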